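import Mathlib

set_option autoImplicit false

namespace Pool.Agent.Lib.MP_801f88_co

open Finset

/-- out-neighbourhood systems in which every pair has exactly one midpoint -/
def IsCG {V : Type*} (X : V → Finset V) : Prop := ∀ x y, ∃! z, z ∈ X x ∧ y ∈ X z

section
variable {V : Type*} [DecidableEq V]

theorem IsCG.filter_card {X : V → Finset V} (hX : IsCG X) (x y : V) :
    ((X x).filter (fun z => y ∈ X z)).card = 1 := by
  obtain ⟨z, hz, hu⟩ := hX x y
  rw [card_eq_one]
  refine ⟨z, ?_⟩
  ext w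
  rw [mem_filter, mem_singleton]
  constructor
  · intro h; exact hu w h
  · intro h; subst h; exact hz

theorem IsCG.sum_inter {X : V → Finset V} (hX : IsCG X) (x : V) (D : Finset V) :
    ∑ z ∈ X x, (X z ∩ D).card = D.card := by
  have h1 : ∀ z ∈ X x, (X z ∩ D).card = ∑ y ∈ D, if y ∈ X z then 1 else 0 := by
    intro z _
    rw [← card_filter, inter_comm]
    congr 1
  rw [sum_congr rfl h1, sum_comm]
  have h2 : ∀ y ∈ D, (∑ z ∈ X x, if y ∈ X z then 1 else 0) = 1 := by
    intro y _
    rw [← card_filter, hX.filter_card x y]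
  rw [sum_congr rfl h2]
  simp

theorem IsCG.disj {X : V → Finset V} (hX : IsCG X) {x z z' : V} (hz : z ∈ X x) (hz' : z' ∈ X x)
    (hne : z ≠ z') : Disjoint (X z) (X z') := by
  rw [disjoint_left]
  intro y hy hy'
  obtain ⟨w, _, hu⟩ := hX x y
  exact hne ((hu z ⟨hz, hy⟩).trans (hu z' ⟨hz', hy'⟩).symm)

end

section
variable {V : Type*} [Fintype V] [DecidableEq V]

theorem IsCG.card_eq_aux {X : V → Finset V} (hX : IsCG X) (x y : V) :
    (X x).card = (univ.filter (fun w => y ∈ X w)).card := by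
  have h1 : (X x).card = ∑ z ∈ X x, ∑ w : V, if (w ∈ X z ∧ y ∈ X w) then 1 else 0 := by
    rw [card_eq_sum_ones]
    apply sum_congr rfl
    intro z _
    have h := hX.filter_card z y
    rw [← card_filter, ← h]
    congr 1
    ext w
    simp
  have h2 : (univ.filter (fun w => y ∈ X w)).card
      = ∑ w : V, ∑ z ∈ X x, if (w ∈ X z ∧ y ∈ X w) then 1 else 0 := by
    rw [card_filter]
    apply sum_congr rfl
    intro w _
    by_cases h : y ∈ X w
    · simp only [h, if_true, and_true]
      rw [← card_filter, hX.filter_card x w]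
    · simp [h]
  rw [h1, h2, sum_comm]

theorem IsCG.card_eq {X : V → Finset V} (hX : IsCG X) {c : ℕ} (hc : Fintype.card V = c ^ 2) (x : V) :
    (X x).card = c := by
  have h1 : ∀ z, (X z).card = (X x).card := by
    intro z
    rw [hX.card_eq_aux z x, hX.card_eq_aux x x]
  have h2 := hX.sum_inter x univ
  simp only [inter_univ, card_univ] at h2
  rw [sum_congr rfl (fun z _ => h1 z), sum_const, smul_eq_mul, hc, ← sq] at h2
  exact Nat.pow_left_injective (by norm_num : (2:ℕ) ≠ 0) h2

theorem IsCG.card_eq' {X : V → Finset V} (hX : IsCG X) {c : ℕ} (hc : Fintype.card V = c ^ 2) (x : V) :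
    (univ.filter (fun w => x ∈ X w)).card = c := by
  rw [← hX.card_eq_aux x x, hX.card_eq hc]

theorem IsCG.sum_out {X : V → Finset V} (hX : IsCG X) {c : ℕ} (hc : Fintype.card V = c ^ 2)
    (h : V → ℕ) : ∑ x : V, ∑ z ∈ X x, h z = c * ∑ z : V, h z := by
  have h1 : ∀ x : V, ∑ z ∈ X x, h z = ∑ z : V, if z ∈ X x then h z else 0 := by
    intro x
    rw [← sum_filter]
    congr 1
    ext z
    simp
  rw [sum_congr rfl (fun x _ => h1 x), sum_comm, mul_sum]
  apply sum_congr rfl
  intro z _
  rw [← sum_filter, sum_const, hX.card_eq' hc, smul_eq_mul]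

/-- the midpoint -/
noncomputable def IsCG.mid {X : V → Finset V} (hX : IsCG X) (x y : V) : V := (hX x y).choose

theorem IsCG.mid_mem {X : V → Finset V} (hX : IsCG X) (x y : V) : hX.mid x y ∈ X x :=
  (hX x y).choose_spec.1.1

theorem IsCG.mem_mid {X : V → Finset V} (hX : IsCG X) (x y : V) : y ∈ X (hX.mid x y) :=
  (hX x y).choose_spec.1.2

theorem IsCG.mid_eq {X : V → Finset V} (hX : IsCG X) {x y z : V} (h1 : z ∈ X x) (h2 : y ∈ X z) :
    hX.mid x y = z :=
  ((hX x y).choose_spec.2 z ⟨h1, h2⟩).symm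

/-- Every directed cut contains at most a third of the arcs: each arc lies in exactly one closed
walk of length three. -/
theorem IsCG.three_cut {X : V → Finset V} (hX : IsCG X) {c : ℕ} (hc : Fintype.card V = c ^ 2)
    (N : Finset V) : 3 * ∑ x ∈ N, (X x \ N).card ≤ c ^ 3 := by
  set E : Finset (V × V) := univ.filter (fun e => e.2 ∈ X e.1) with hE
  have hEcard : E.card = c ^ 3 := by
    have h1 : E.card = ∑ x : V, (X x).card := by
      rw [hE, card_filter, Fintype.sum_prod_type]
      apply sum_congr rfl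
      intro x _
      rw [← card_filter]
      congr 1
      ext z
      simp
    rw [h1, sum_congr rfl (fun x _ => hX.card_eq hc x), sum_const, card_univ, hc, smul_eq_mul]
    ring
  set C0 := E.filter (fun e => e.1 ∈ N ∧ e.2 ∉ N) with hC0
  set C1 := E.filter (fun e => e.1 ∉ N ∧ hX.mid e.2 e.1 ∈ N) with hC1
  set C2 := E.filter (fun e => e.2 ∈ N ∧ hX.mid e.2 e.1 ∉ N) with hC2
  have hC0card : C0.card = ∑ x ∈ N, (X x \ N).card := by
    have h1 : C0.card = (N.sigma (fun x => X x \ N)).card := by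
      apply card_bij' (fun e _ => (⟨e.1, e.2⟩ : (_ : V) × V)) (fun p _ => (p.1, p.2))
      · rintro ⟨a, b⟩ h
        simp only [hC0, hE, mem_filter, mem_univ, true_and, mem_sigma, mem_sdiff] at h ⊢
        exact ⟨h.2.1, h.1, h.2.2⟩
      · rintro ⟨a, b⟩ h
        simp only [hC0, hE, mem_filter, mem_univ, true_and, mem_sigma, mem_sdiff] at h ⊢
        exact ⟨h.2.1, h.1, h.2.2⟩
      · rintro ⟨a, b⟩ _
        rfl
      · rintro ⟨a, b⟩ _
        rfl
    rw [h1, card_sigma]
  have h01 : C0.card ≤ C1.card := by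
    apply card_le_card_of_injOn (fun e => (e.2, hX.mid e.2 e.1))
    · rintro ⟨a, b⟩ he
      rw [mem_coe] at he ⊢
      simp only [hC0, hC1, hE, mem_filter, mem_univ, true_and] at he ⊢
      obtain ⟨h1, h2, h3⟩ := he
      refine ⟨hX.mid_mem _ _, h3, ?_⟩
      rw [hX.mid_eq (hX.mem_mid b a) h1]
      exact h2
    · rintro ⟨a, b⟩ he ⟨a', b'⟩ he' hh
      rw [mem_coe] at he he'
      simp only [hC0, hE, mem_filter, mem_univ, true_and] at he he'
      simp only [Prod.mk.injEq] at hh
      obtain ⟨rfl, h2⟩ := hh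
      have e1 := hX.mid_eq (hX.mem_mid b a) he.1
      have e2 := hX.mid_eq (hX.mem_mid b a') he'.1
      rw [h2] at e1
      rw [e1.symm.trans e2]
  have h02 : C0.card ≤ C2.card := by
    apply card_le_card_of_injOn (fun e => (hX.mid e.2 e.1, e.1))
    · rintro ⟨a, b⟩ he
      rw [mem_coe] at he ⊢
      simp only [hC0, hC2, hE, mem_filter, mem_univ, true_and] at he ⊢
      obtain ⟨h1, h2, h3⟩ := he
      refine ⟨hX.mem_mid _ _, h2, ?_⟩
      rw [hX.mid_eq h1 (hX.mid_mem b a)]
      exact h3
    · rintro ⟨a, b⟩ he ⟨a', b'⟩ he' hh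
      rw [mem_coe] at he he'
      simp only [hC0, hE, mem_filter, mem_univ, true_and] at he he'
      simp only [Prod.mk.injEq] at hh
      obtain ⟨h2, rfl⟩ := hh
      have e1 := hX.mid_eq he.1 (hX.mid_mem b a)
      have e2 := hX.mid_eq he'.1 (hX.mid_mem b' a)
      rw [h2] at e1
      rw [e1.symm.trans e2]
  have d01 : Disjoint C0 C1 := by
    rw [disjoint_left]
    intro e h h'
    rw [hC0, mem_filter] at h
    rw [hC1, mem_filter] at h'
    exact h'.2.1 h.2.1
  have d02 : Disjoint (C0 ∪ C1) C2 := by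
    rw [disjoint_left]
    intro e h h'
    rw [hC2, mem_filter] at h'
    rcases mem_union.mp h with h | h
    · rw [hC0, mem_filter] at h
      exact h.2.2 h'.2.1
    · rw [hC1, mem_filter] at h
      exact h'.2.2 h.2.2
  have hsub : (C0 ∪ C1) ∪ C2 ⊆ E := by
    apply union_subset (union_subset _ _) _
    all_goals exact filter_subset _ _
  have hle := card_le_card hsub
  rw [card_union_of_disjoint d02, card_union_of_disjoint d01, hEcard] at hle
  rw [← hC0card]
  omega

end

end Pool.Agent.Lib.MP_801f88_co
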