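import Pool.Agent.Lib.MP_801f88_co.Encode

set_option autoImplicit false

namespace Pool.Agent.Lib.MP_801f88_co

open Finset

/-- the set in which the cheap part of each row lives -/
def cheap {V : Type*} [Fintype V] [DecidableEq V] (N F : Finset V) (S T : V → Finset V)
    (X : V → Finset V) (x : V) : Finset V :=
  if x ∈ N then cand N F (T x) X else (S x).biUnion X

open Classical in
theorem card_cg_le {V : Type*} [Fintype V] {c : ℕ}
    (hc : Fintype.card V = c ^ 2) (hcpos : 0 < c) (K l M m M0 t f1 f2 : ℕ) (hl : 0 < l)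
    (hM : 0 < M) (hm : 0 < m) (hM0 : 0 < M0) (hK : l * (M0 + m) ≤ K)
    (hf1 : 1 + ((c ^ 2 : ℕ) / M : ℝ) * Real.log (((c ^ 2 + 1 : ℕ) : ℝ) ^ (K + 1)) ≤ f1)
    (hf2 : 1 + ((c ^ 2 : ℕ) / m : ℝ) * Real.log ((((c ^ 2) ^ 2 : ℕ)) : ℝ) ≤ f2)
    (ht : m * (1 + (c / M0 : ℝ) * Real.log (c ^ 2 : ℕ)) ≤ t)
    (lam : ℝ) (hlam : 1 ≤ lam) (hMl : (M : ℝ) ≤ lam) (hKl : (K : ℝ) ≤ lam) :
    (((univ : Finset (V → Finset V)).filter (fun X => IsCG X)).card : ℝ) ≤
      Real.exp (((c : ℝ) ^ 3 / 3 + (c : ℝ) ^ 3 / l) * Real.log c + 3 * (c : ℝ) ^ 3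
        + (c : ℝ) ^ 3 * Real.log lam) *
      (((c ^ 2 + 1) ^ (5 * c ^ 2 + K * c ^ 2 + t * c ^ 2 + c * (f1 + f2)) : ℕ) : ℝ) := by
  set A := (univ : Finset (V → Finset V)).filter (fun X => IsCG X) with hA
  have hstr : ∀ X : V → Finset V, IsCG X → ∃ (F1 F2 N : Finset V) (S T : V → Finset V),
      F1.card ≤ f1 ∧ F2.card ≤ f2 ∧
      (∀ z, S z ⊆ F1 ∧ (S z).card ≤ K) ∧
      (∀ z, z ∉ N → l * (X z \ (S z).biUnion X).card < c) ∧
      (∀ x, T x ⊆ X x) ∧ (∀ x, (T x).card ≤ t) ∧
      ∑ x : V, (cand N F2 (T x) X).card ≤ c * (c ^ 2 * M) := by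
    intro X hX
    obtain ⟨F1, F2, N, S, T, h1, h2, h3, h4, h5, h6, h7⟩ :=
      exists_structure hX hc hcpos K l M m M0 hM hm hM0 hK
    exact ⟨F1, F2, N, S, T, by exact_mod_cast h1.trans hf1, by exact_mod_cast h2.trans hf2, h3, h4,
      h5, fun x => by exact_mod_cast (h6 x).trans ht, h7⟩
  choose! F1 F2 N S T hF1 hF2 hS hN hTx hTc hcand using hstr
  -- the information recorded
  set B : (V → Finset V) → V → Finset V := fun X x => cheap (N X) (F2 X) (S X) (T X) X x with hB
  set info1 : (V → Finset V) → Finset V × Finset V := fun X => (F1 X, F2 X) with hinfo1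
  set R : (V → Finset V) → V → Finset V := fun X z => if z ∈ F1 X then X z else ∅ with hR
  set C : (V → Finset V) → V → Finset V :=
    fun X y => if y ∈ F2 X then univ.filter (fun w => y ∈ X w) else ∅ with hC
  set k1 : (V → Finset V) → V → ℕ := fun X x => (X x \ B X x).card with hk1
  set k2 : (V → Finset V) → V → ℕ := fun X x => (X x ∩ B X x).card with hk2
  set info2 : (V → Finset V) → Finset V × (V → Finset V) × (V → Finset V) × (V → Finset V) ×
      (V → Finset V) × (V → ℕ) × (V → ℕ) :=
    fun X => (N X, S X, T X, R X, C X, k1 X, k2 X) with hinfo2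
  -- the cheap sets are determined by the information
  have hBdet : ∀ X ∈ A, ∀ X' ∈ A, info1 X = info1 X' → info2 X = info2 X' → B X = B X' := by
    intro X hXA X' hXA' h1 h2
    have hX : IsCG X := (mem_filter.mp hXA).2
    have hX' : IsCG X' := (mem_filter.mp hXA').2
    simp only [hinfo1, Prod.mk.injEq] at h1
    simp only [hinfo2, Prod.mk.injEq] at h2
    obtain ⟨e1, e2⟩ := h1
    obtain ⟨e3, e4, e5, e6, e7, _, _⟩ := h2
    have hrow : ∀ z ∈ F1 X, X z = X' z := by
      intro z hz
      have := congrFun e6 z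
      simp only [hR] at this
      rw [if_pos hz, if_pos (e1 ▸ hz)] at this
      exact this
    have hcol : ∀ w, X w ∩ F2 X = X' w ∩ F2 X := by
      intro w
      ext y
      simp only [mem_inter]
      constructor
      · rintro ⟨hy, hyF⟩
        refine ⟨?_, hyF⟩
        have := congrFun e7 y
        simp only [hC] at this
        rw [if_pos hyF, if_pos (e2 ▸ hyF)] at this
        have hw : w ∈ univ.filter (fun w => y ∈ X w) := mem_filter.mpr ⟨mem_univ _, hy⟩
        rw [this] at hw
        exact (mem_filter.mp hw).2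
      · rintro ⟨hy, hyF⟩
        refine ⟨?_, hyF⟩
        have := congrFun e7 y
        simp only [hC] at this
        rw [if_pos hyF, if_pos (e2 ▸ hyF)] at this
        have hw : w ∈ univ.filter (fun w => y ∈ X' w) := mem_filter.mpr ⟨mem_univ _, hy⟩
        rw [← this] at hw
        exact (mem_filter.mp hw).2
    funext x
    simp only [hB, cheap]
    rw [← e3, ← e2, ← e4, ← e5]
    by_cases hx : x ∈ N X
    · rw [if_pos hx, if_pos hx, cand, cand]
      congr 1
      funext z
      simp only [hcol]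
    · rw [if_neg hx, if_neg hx]
      apply biUnion_congr rfl
      intro z hz
      exact hrow z ((hS X hX x).1 hz)
  set I2 : Finset V → Finset V → Finset (Finset V × (V → Finset V) × (V → Finset V) ×
      (V → Finset V) × (V → Finset V) × (V → ℕ) × (V → ℕ)) := fun F G =>
    (univ : Finset (Finset V)) ×ˢ
    Fintype.piFinset (fun _ : V => (univ : Finset (Finset V)).filter (fun S => S.card ≤ K)) ×ˢ
    Fintype.piFinset (fun _ : V => (univ : Finset (Finset V)).filter (fun S => S.card ≤ t)) ×ˢ
    Fintype.piFinset (fun z : V => if z ∈ F then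
        (univ : Finset (Finset V)).filter (fun S => S.card ≤ c) else {∅}) ×ˢ
    Fintype.piFinset (fun z : V => if z ∈ G then
        (univ : Finset (Finset V)).filter (fun S => S.card ≤ c) else {∅}) ×ˢ
    Fintype.piFinset (fun _ : V => range (c + 1)) ×ˢ
    Fintype.piFinset (fun _ : V => range (c + 1)) with hI2
  have hn1 : 1 ≤ c ^ 2 + 1 := by omega
  have hI2card : ∀ F G : Finset V, F.card ≤ f1 → G.card ≤ f2 →
      (I2 F G).card ≤ (c ^ 2 + 1) ^ (3 * c ^ 2 + K * c ^ 2 + t * c ^ 2 + c * (f1 + f2)) := by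
    intro F G hF hG
    have q1 : (univ : Finset (Finset V)).card ≤ (c ^ 2 + 1) ^ (c ^ 2) := by
      rw [card_univ, Fintype.card_finset, hc]
      exact Nat.pow_le_pow_left (by nlinarith [Nat.one_le_pow 2 c hcpos]) _
    have q2 := card_pi_small (V := V) K
    have q3 := card_pi_small (V := V) t
    have q4 := card_pi_partial (V := V) c F
    have q5 := card_pi_partial (V := V) c G
    have q6 : (Fintype.piFinset (fun _ : V => range (c + 1))).card ≤ (c ^ 2 + 1) ^ (c ^ 2) := by
      rw [Fintype.card_piFinset, prod_const, card_univ, hc, card_range]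
      exact Nat.pow_le_pow_left (by nlinarith [hcpos]) _
    rw [hc] at q2 q3 q4 q5
    have q4' : (c ^ 2 + 1) ^ (c * F.card) ≤ (c ^ 2 + 1) ^ (c * f1) :=
      Nat.pow_le_pow_right hn1 (Nat.mul_le_mul_left _ hF)
    have q5' : (c ^ 2 + 1) ^ (c * G.card) ≤ (c ^ 2 + 1) ^ (c * f2) :=
      Nat.pow_le_pow_right hn1 (Nat.mul_le_mul_left _ hG)
    have q7 := q4.trans q4'
    have q8 := q5.trans q5'
    simp only [hI2]
    rw [card_product, card_product, card_product, card_product, card_product, card_product]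
    calc _ ≤ (c ^ 2 + 1) ^ (c ^ 2) * ((c ^ 2 + 1) ^ (K * c ^ 2) * ((c ^ 2 + 1) ^ (t * c ^ 2) *
          ((c ^ 2 + 1) ^ (c * f1) * ((c ^ 2 + 1) ^ (c * f2) * ((c ^ 2 + 1) ^ (c ^ 2)
            * (c ^ 2 + 1) ^ (c ^ 2)))))) := by
          gcongr
      _ = _ := by
          rw [← pow_add, ← pow_add, ← pow_add, ← pow_add, ← pow_add, ← pow_add]
          congr 1
          ring
  have hmaps2 : ∀ X ∈ A, info2 X ∈ I2 (F1 X) (F2 X) := by
    intro X hXA
    have hX : IsCG X := (mem_filter.mp hXA).2
    simp only [hI2, hinfo2, mem_product, Fintype.mem_piFinset, mem_univ, true_and]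
    refine ⟨?_, ?_, ?_, ?_, ?_, ?_⟩
    · intro x
      exact mem_filter.mpr ⟨mem_univ _, (hS X hX x).2⟩
    · intro x
      exact mem_filter.mpr ⟨mem_univ _, hTc X hX x⟩
    · intro z
      simp only [hR]
      by_cases h : z ∈ F1 X
      · rw [if_pos h, if_pos h]
        exact mem_filter.mpr ⟨mem_univ _, (hX.card_eq hc z).le⟩
      · rw [if_neg h, if_neg h]
        exact mem_singleton_self _
    · intro z
      simp only [hC]
      by_cases h : z ∈ F2 X
      · rw [if_pos h, if_pos h]
        exact mem_filter.mpr ⟨mem_univ _, (hX.card_eq' hc z).le⟩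
      · rw [if_neg h, if_neg h]
        exact mem_singleton_self _
    · intro x
      simp only [hk1, mem_range]
      have h1 : (X x \ B X x).card ≤ (X x).card := card_le_card sdiff_subset
      rw [hX.card_eq hc] at h1
      omega
    · intro x
      simp only [hk2, mem_range]
      have h1 : (X x ∩ B X x).card ≤ (X x).card := card_le_card inter_subset_left
      rw [hX.card_eq hc] at h1
      omega
  set E : ℝ := Real.exp (((c : ℝ) ^ 3 / 3 + (c : ℝ) ^ 3 / l) * Real.log c + 3 * (c : ℝ) ^ 3
        + (c : ℝ) ^ 3 * Real.log lam) with hE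
  have hEpos : 0 < E := Real.exp_pos _
  -- bound of a fibre
  have hfiber : ∀ X0 ∈ A, (((A.filter (fun X => info1 X = info1 X0)).filter
      (fun X => info2 X = info2 X0)).card : ℝ) ≤ E := by
    intro X0 hX0A
    have hX0 : IsCG X0 := (mem_filter.mp hX0A).2
    have hsub : ((A.filter (fun X => info1 X = info1 X0)).filter (fun X => info2 X = info2 X0)) ⊆
        Fintype.piFinset (fun x => ((powersetCard (k1 X0 x) univ) ×ˢ
          (powersetCard (k2 X0 x) (B X0 x))).image (fun p => p.1 ∪ p.2)) := by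
      intro X hX
      rw [mem_filter, mem_filter] at hX
      obtain ⟨⟨hXA, hi1⟩, hi2⟩ := hX
      have hBB := hBdet X hXA X0 hX0A hi1 hi2
      rw [Fintype.mem_piFinset]
      intro x
      rw [mem_image]
      refine ⟨(X x \ B X0 x, X x ∩ B X0 x), ?_, ?_⟩
      · rw [mem_product, mem_powersetCard, mem_powersetCard]
        simp only [hinfo2, Prod.mk.injEq] at hi2
        obtain ⟨_, _, _, _, _, g1, g2⟩ := hi2
        have g1' := congrFun g1 x
        have g2' := congrFun g2 x
        simp only [hk1, hk2] at g1' g2' ⊢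
        rw [hBB] at g1' g2'
        exact ⟨⟨subset_univ _, g1'⟩, inter_subset_right, g2'⟩
      · exact sdiff_union_inter _ _
    have hcard1 : (((A.filter (fun X => info1 X = info1 X0)).filter
      (fun X => info2 X = info2 X0)).card : ℝ) ≤
        ∏ x, (((c ^ 2).choose (k1 X0 x) : ℝ) * (((B X0 x).card).choose (k2 X0 x) : ℝ)) := by
      have h1 := card_le_card hsub
      rw [Fintype.card_piFinset] at h1
      have h2 : ∏ x, (((powersetCard (k1 X0 x) univ) ×ˢ
          (powersetCard (k2 X0 x) (B X0 x))).image (fun p => p.1 ∪ p.2)).card ≤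
          ∏ x, ((c ^ 2).choose (k1 X0 x) * ((B X0 x).card).choose (k2 X0 x)) := by
        apply prod_le_prod (fun _ _ => Nat.zero_le _)
        intro x _
        refine card_image_le.trans ?_
        rw [card_product, card_powersetCard, card_powersetCard, card_univ, hc]
      exact_mod_cast h1.trans h2
    refine hcard1.trans ?_
    rw [hE]
    apply fiber_product_bound hc hcpos l hl lam hlam
    · -- total of the expensive parts
      have hsplit : (∑ x, (k1 X0 x : ℝ)) = ∑ x ∈ N X0, (k1 X0 x : ℝ)
          + ∑ x ∈ (N X0)ᶜ, (k1 X0 x : ℝ) := by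
        rw [sum_add_sum_compl]
      have p1 : ∑ x ∈ N X0, (k1 X0 x : ℝ) ≤ (c : ℝ) ^ 3 / 3 := by
        have q1 : ∑ x ∈ N X0, k1 X0 x ≤ ∑ x ∈ N X0, (X0 x \ N X0).card := by
          apply sum_le_sum
          intro x hx
          simp only [hk1]
          apply card_le_card
          intro z hz
          rw [mem_sdiff] at hz ⊢
          refine ⟨hz.1, fun hzN => hz.2 ?_⟩
          simp only [hB, cheap]
          rw [if_pos hx]
          apply mem_filter.mpr
          refine ⟨hzN, fun w hw hwz => ?_⟩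
          have hd := hX0.disj (hTx X0 hX0 x hw) hz.1 hwz
          rw [← disjoint_iff_inter_eq_empty]
          exact hd.mono inter_subset_left inter_subset_left
        have q2 := hX0.three_cut hc (N X0)
        have q3 : (3 : ℝ) * ∑ x ∈ N X0, (k1 X0 x : ℝ) ≤ (c : ℝ) ^ 3 := by
          have : 3 * ∑ x ∈ N X0, k1 X0 x ≤ c ^ 3 := (Nat.mul_le_mul_left 3 q1).trans q2
          exact_mod_cast this
        linarith
      have p2 : ∑ x ∈ (N X0)ᶜ, (k1 X0 x : ℝ) ≤ (c : ℝ) ^ 3 / l := by
        have hlR : (0 : ℝ) < l := by exact_mod_cast hl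
        have q1 : ∀ x ∈ (N X0)ᶜ, (k1 X0 x : ℝ) ≤ c / l := by
          intro x hx
          rw [mem_compl] at hx
          have := hN X0 hX0 x hx
          simp only [hk1, hB, cheap]
          rw [if_neg hx, le_div_iff₀ hlR]
          have h2 : ((l * (X0 x \ (S X0 x).biUnion X0).card : ℕ) : ℝ) ≤ c := by
            exact_mod_cast this.le
          push_cast at h2
          linarith
        calc ∑ x ∈ (N X0)ᶜ, (k1 X0 x : ℝ) ≤ ∑ _x ∈ (N X0)ᶜ, (c / l : ℝ) := sum_le_sum q1
          _ = ((N X0)ᶜ).card * (c / l : ℝ) := by rw [sum_const, nsmul_eq_mul]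
          _ ≤ (c : ℝ) ^ 2 * (c / l : ℝ) := by
              apply mul_le_mul_of_nonneg_right _ (by positivity)
              have : ((N X0)ᶜ).card ≤ c ^ 2 := by rw [← hc]; exact card_le_univ _
              exact_mod_cast this
          _ = (c : ℝ) ^ 3 / l := by ring
      linarith
    · intro x
      simp only [hk2]
      have h1 : (X0 x ∩ B X0 x).card ≤ (X0 x).card := card_le_card inter_subset_left
      rw [hX0.card_eq hc] at h1
      exact h1
    · have p1 : ∀ x, (B X0 x).card ≤ (cand (N X0) (F2 X0) (T X0 x) X0).card + K * c := by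
        intro x
        simp only [hB, cheap]
        by_cases hx : x ∈ N X0
        · rw [if_pos hx]; omega
        · rw [if_neg hx]
          have : ((S X0 x).biUnion X0).card ≤ (S X0 x).card * c :=
            card_biUnion_le_card_mul _ _ _ (fun z _ => (hX0.card_eq hc z).le)
          have h2 := (hS X0 hX0 x).2
          have h3 : (S X0 x).card * c ≤ K * c := Nat.mul_le_mul_right _ h2
          omega
      have p2 : ∑ x, (B X0 x).card ≤ c * (c ^ 2 * M) + c ^ 2 * (K * c) := by
        calc ∑ x, (B X0 x).card ≤ ∑ x, ((cand (N X0) (F2 X0) (T X0 x) X0).card + K * c) :=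
              sum_le_sum (fun x _ => p1 x)
          _ = ∑ x, (cand (N X0) (F2 X0) (T X0 x) X0).card + c ^ 2 * (K * c) := by
              rw [sum_add_distrib, sum_const, card_univ, hc, smul_eq_mul]
          _ ≤ _ := Nat.add_le_add_right (hcand X0 hX0) _
      have p3 : (∑ x, ((B X0 x).card : ℝ)) ≤ (c : ℝ) ^ 3 * M + (c : ℝ) ^ 3 * K := by
        have : ((∑ x, (B X0 x).card : ℕ) : ℝ) ≤ ((c * (c ^ 2 * M) + c ^ 2 * (K * c) : ℕ) : ℝ) := by
          exact_mod_cast p2
        push_cast at this
        nlinarith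
      have hc3 : (0 : ℝ) ≤ (c : ℝ) ^ 3 := by positivity
      nlinarith [mul_le_mul_of_nonneg_left hMl hc3, mul_le_mul_of_nonneg_left hKl hc3]
  -- assemble
  set P : ℕ := (c ^ 2 + 1) ^ (3 * c ^ 2 + K * c ^ 2 + t * c ^ 2 + c * (f1 + f2)) with hP
  have hstage2 : ∀ b ∈ (univ : Finset (Finset V × Finset V)),
      ((A.filter (fun X => info1 X = b)).card : ℝ) ≤ E * P := by
    intro b _
    by_cases hne : (A.filter (fun X => info1 X = b)).Nonempty
    · obtain ⟨X1, hX1⟩ := hne
      rw [mem_filter] at hX1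
      have hX1c : IsCG X1 := (mem_filter.mp hX1.1).2
      have hb1 : b = (F1 X1, F2 X1) := hX1.2.symm
      have hmp : ∀ X ∈ A.filter (fun X => info1 X = b), info2 X ∈ I2 (F1 X1) (F2 X1) := by
        intro X hX
        rw [mem_filter] at hX
        have h1 := hmaps2 X hX.1
        have h2 : (F1 X, F2 X) = (F1 X1, F2 X1) := hX.2.trans hb1
        rw [Prod.mk.injEq] at h2
        rw [h2.1, h2.2] at h1
        exact h1
      have h3 := card_le_fiber (A.filter (fun X => info1 X = b)) (I2 (F1 X1) (F2 X1)) info2 hmp E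
        (by
          intro j _
          by_cases hne2 : ((A.filter (fun X => info1 X = b)).filter (fun X => info2 X = j)).Nonempty
          · obtain ⟨X2, hX2⟩ := hne2
            rw [mem_filter, mem_filter] at hX2
            have := hfiber X2 hX2.1.1
            rw [hX2.1.2, hX2.2] at this
            exact this
          · rw [not_nonempty_iff_eq_empty.mp hne2, card_empty]
            simp only [Nat.cast_zero]
            exact hEpos.le)
      refine h3.trans ?_
      apply mul_le_mul_of_nonneg_left _ hEpos.le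
      exact_mod_cast hI2card _ _ (hF1 X1 hX1c) (hF2 X1 hX1c)
    · rw [not_nonempty_iff_eq_empty.mp hne, card_empty]
      simp only [Nat.cast_zero]
      positivity
  have hfinal := card_le_fiber A (univ : Finset (Finset V × Finset V)) info1
    (fun _ _ => mem_univ _) (E * P) hstage2
  refine hfinal.trans ?_
  rw [mul_assoc]
  apply mul_le_mul_of_nonneg_left _ hEpos.le
  have hu : (univ : Finset (Finset V × Finset V)).card ≤ (c ^ 2 + 1) ^ (2 * c ^ 2) := by
    rw [card_univ, Fintype.card_prod, Fintype.card_finset, hc, ← sq, ← pow_mul, mul_comm (c ^ 2) 2]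
    exact Nat.pow_le_pow_left (by nlinarith [Nat.one_le_pow 2 c hcpos]) _
  have : P * (univ : Finset (Finset V × Finset V)).card ≤
      (c ^ 2 + 1) ^ (5 * c ^ 2 + K * c ^ 2 + t * c ^ 2 + c * (f1 + f2)) := by
    calc P * (univ : Finset (Finset V × Finset V)).card ≤ P * (c ^ 2 + 1) ^ (2 * c ^ 2) :=
          Nat.mul_le_mul_left _ hu
      _ = _ := by
          rw [hP, ← pow_add]
          congr 1
          ring
  exact_mod_cast this

end Pool.Agent.Lib.MP_801f88_co
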