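import Mathlib

set_option autoImplicit false

namespace Pool.Agent.Lib.MP_801f88_co

/-- `A` is a (0,1)-matrix of order `c ^ 2` with `A ^ 2 = J` (products over the integers). -/
def IsSolution (c : ℕ) (A : Matrix (Fin (c ^ 2)) (Fin (c ^ 2)) ℤ) : Prop :=
  (∀ i j, A i j = 0 ∨ A i j = 1) ∧ A * A = Matrix.of (fun _ _ => 1)

/-- Equivalence of matrices: `A' = Pᵀ A P` for some permutation matrix `P`. -/
def PermEquivalent {n : ℕ} (A A' : Matrix (Fin n) (Fin n) ℤ) : Prop :=
  ∃ s : Equiv.Perm (Fin n), A' = (s.permMatrix ℤ).transpose * A * s.permMatrix ℤ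

theorem permEquivalent_iff {n : ℕ} (A A' : Matrix (Fin n) (Fin n) ℤ) :
    PermEquivalent A A' ↔ ∃ s : Equiv.Perm (Fin n), A' = A.submatrix s s := by
  have key : ∀ s : Equiv.Perm (Fin n),
      (s.permMatrix ℤ).transpose * A * s.permMatrix ℤ = A.submatrix s.symm s.symm := by
    intro s
    rw [Matrix.transpose_permMatrix, PEquiv.toMatrix_toPEquiv_mul, PEquiv.mul_toMatrix_toPEquiv]
    rfl
  constructor
  · rintro ⟨s, hs⟩
    exact ⟨s.symm, by rw [hs, key]⟩
  · rintro ⟨s, hs⟩
    exact ⟨s.symm, by rw [key, hs]; rfl⟩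

/-- The equivalence relation on the solutions of order `c ^ 2`. -/
def solutionSetoid (c : ℕ) : Setoid {A // IsSolution c A} where
  r A A' := PermEquivalent A.1 A'.1
  iseqv := by
    refine ⟨fun A => ?_, fun {A A'} h => ?_, fun {A A' A''} h h' => ?_⟩
    · rw [permEquivalent_iff]
      exact ⟨1, rfl⟩
    · rw [permEquivalent_iff] at h ⊢
      obtain ⟨s, hs⟩ := h
      refine ⟨s⁻¹, ?_⟩
      rw [hs]
      ext i j
      simp
    · rw [permEquivalent_iff] at h h' ⊢
      obtain ⟨s, hs⟩ := h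
      obtain ⟨t, ht⟩ := h'
      refine ⟨s * t, ?_⟩
      rw [ht, hs]
      ext i j
      simp

/-- `N(c)`: the number of equivalence classes of solutions of order `c ^ 2`. -/
noncomputable def numClasses (c : ℕ) : ℕ := Nat.card (Quotient (solutionSetoid c))

end Pool.Agent.Lib.MP_801f88_co
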