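import Pool.Agent.Lib.MP_801f88_co.Structure

set_option autoImplicit false

namespace Pool.Agent.Lib.MP_801f88_co

open Finset

/-- fibrewise counting with real bounds -/
theorem card_le_fiber {α β : Type*} [DecidableEq β] (s : Finset α) (t : Finset β) (f : α → β)
    (hf : ∀ a ∈ s, f a ∈ t) (B : ℝ)
    (hB : ∀ b ∈ t, ((s.filter (fun a => f a = b)).card : ℝ) ≤ B) : (s.card : ℝ) ≤ B * t.card := by
  have h1 : s.card = ∑ b ∈ t, (s.filter (fun a => f a = b)).card :=
    card_eq_sum_card_fiberwise hf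
  rw [h1]
  push_cast
  calc ∑ b ∈ t, ((s.filter (fun a => f a = b)).card : ℝ) ≤ ∑ _b ∈ t, B := sum_le_sum hB
    _ = B * t.card := by rw [sum_const, nsmul_eq_mul, mul_comm]

theorem fiber_product_bound {V : Type*} [Fintype V] [DecidableEq V] {c : ℕ}
    (hc : Fintype.card V = c ^ 2) (hcpos : 0 < c) (l : ℕ) (hl : 0 < l) (lam : ℝ) (hlam : 1 ≤ lam)
    (k1 k2 b : V → ℕ) (hk1 : (∑ x, (k1 x : ℝ)) ≤ (c : ℝ) ^ 3 / 3 + (c : ℝ) ^ 3 / l)
    (hk2 : ∀ x, k2 x ≤ c) (hb : (∑ x, (b x : ℝ)) ≤ 2 * (c : ℝ) ^ 3 * lam) :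
    (∏ x, (((c ^ 2).choose (k1 x) : ℝ) * ((b x).choose (k2 x) : ℝ))) ≤
      Real.exp (((c : ℝ) ^ 3 / 3 + (c : ℝ) ^ 3 / l) * Real.log c + 3 * (c : ℝ) ^ 3
        + (c : ℝ) ^ 3 * Real.log lam) := by
  have hcR : (0 : ℝ) < c := by exact_mod_cast hcpos
  have hc1 : (1 : ℝ) ≤ c := by exact_mod_cast hcpos
  have hlogc : 0 ≤ Real.log c := Real.log_nonneg hc1
  have hlamp : 0 < lam := by linarith
  have hloglam : 0 ≤ Real.log lam := Real.log_nonneg hlam
  have h1 : ∀ x : V, (((c ^ 2).choose (k1 x) : ℝ) * ((b x).choose (k2 x) : ℝ)) ≤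
      Real.exp (k1 x * Real.log c + c + k2 x * Real.log lam + b x / lam) := by
    intro x
    have e1 := choose_le_exp (c ^ 2) (k1 x) (c : ℝ) hcR
    have e2 := choose_le_exp (b x) (k2 x) lam hlamp
    have e3 : (((c ^ 2 : ℕ) : ℝ)) / (c : ℝ) = c := by push_cast; field_simp
    rw [e3] at e1
    have e4 : (c : ℝ) ^ (k1 x) = Real.exp (k1 x * Real.log c) := by
      rw [mul_comm, Real.exp_mul, Real.exp_log hcR, Real.rpow_natCast]
    have e5 : lam ^ (k2 x) = Real.exp (k2 x * Real.log lam) := by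
      rw [mul_comm, Real.exp_mul, Real.exp_log hlamp, Real.rpow_natCast]
    rw [e4, ← Real.exp_add] at e1
    rw [e5, ← Real.exp_add] at e2
    calc _ ≤ Real.exp (k1 x * Real.log c + c) * Real.exp (k2 x * Real.log lam + b x / lam) :=
          mul_le_mul e1 e2 (by positivity) (by positivity)
      _ = _ := by rw [← Real.exp_add]; congr 1; ring
  have hcardR : ((Fintype.card V : ℕ) : ℝ) = (c : ℝ) ^ 2 := by rw [hc]; push_cast; ring
  calc _ ≤ ∏ x : V, Real.exp (k1 x * Real.log c + c + k2 x * Real.log lam + b x / lam) :=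
        prod_le_prod (fun x _ => by positivity) (fun x _ => h1 x)
    _ = Real.exp (∑ x : V, (k1 x * Real.log c + c + k2 x * Real.log lam + b x / lam)) := by
        rw [Real.exp_sum]
    _ ≤ _ := by
        apply Real.exp_le_exp.mpr
        have s1 : ∑ x : V, ((k1 x : ℝ) * Real.log c + c + k2 x * Real.log lam + b x / lam)
            = (∑ x : V, (k1 x : ℝ)) * Real.log c + (c : ℝ) ^ 2 * c
              + (∑ x : V, (k2 x : ℝ)) * Real.log lam + (∑ x : V, (b x : ℝ)) / lam := by
          rw [sum_add_distrib, sum_add_distrib, sum_add_distrib, ← sum_mul, ← sum_mul, ← sum_div]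
          simp only [sum_const, card_univ, nsmul_eq_mul]
          rw [hcardR]
        rw [s1]
        have s2 : (∑ x : V, (k2 x : ℝ)) ≤ (c : ℝ) ^ 3 := by
          calc (∑ x : V, (k2 x : ℝ)) ≤ ∑ _x : V, (c : ℝ) :=
                sum_le_sum (fun x _ => by exact_mod_cast hk2 x)
            _ = (c : ℝ) ^ 3 := by
                simp only [sum_const, card_univ, nsmul_eq_mul]
                rw [hcardR]; ring
        have s3 : (∑ x : V, (b x : ℝ)) / lam ≤ 2 * (c : ℝ) ^ 3 := by
          rw [div_le_iff₀ hlamp]; exact hb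
        have s4 := mul_le_mul_of_nonneg_right hk1 hlogc
        have s5 := mul_le_mul_of_nonneg_right s2 hloglam
        nlinarith

theorem card_pi_small {V : Type*} [Fintype V] [DecidableEq V] (k : ℕ) :
    (Fintype.piFinset (fun _ : V => (univ : Finset (Finset V)).filter (fun S => S.card ≤ k))).card
      ≤ (Fintype.card V + 1) ^ (k * Fintype.card V) := by
  rw [Fintype.card_piFinset, prod_const, card_univ, pow_mul]
  exact Nat.pow_le_pow_left (card_small_subsets V k) _

theorem card_pi_partial {V : Type*} [Fintype V] [DecidableEq V] (k : ℕ) (F : Finset V) :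
    (Fintype.piFinset (fun z : V => if z ∈ F then
        (univ : Finset (Finset V)).filter (fun S => S.card ≤ k) else {∅})).card
      ≤ (Fintype.card V + 1) ^ (k * F.card) := by
  rw [Fintype.card_piFinset]
  have h1 : ∀ z : V, (if z ∈ F then
        (univ : Finset (Finset V)).filter (fun S => S.card ≤ k) else {∅}).card
        ≤ if z ∈ F then (Fintype.card V + 1) ^ k else 1 := by
    intro z
    by_cases h : z ∈ F
    · simp only [h, if_true]
      exact card_small_subsets V k
    · simp [h]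
  calc _ ≤ ∏ z : V, (if z ∈ F then (Fintype.card V + 1) ^ k else 1) :=
        prod_le_prod (fun _ _ => Nat.zero_le _) (fun z _ => h1 z)
    _ = (Fintype.card V + 1) ^ (k * F.card) := by
        rw [prod_ite]
        simp [filter_mem_eq_inter, pow_mul]

end Pool.Agent.Lib.MP_801f88_co
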