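import Mathlib

set_option autoImplicit false

namespace Pool.Agent.Lib.MP_801f88_co

open Finset

/-- Greedy hitting set. -/
theorem exists_hitting {α ι : Type*} [DecidableEq α] [DecidableEq ι] (U : Finset α)
    (H : ι → Finset α) (M : ℕ) (hM : 0 < M) :
    ∀ (n : ℕ) (I : Finset ι), I.card = n → I.Nonempty → (∀ i ∈ I, H i ⊆ U ∧ M ≤ (H i).card) →
      ∃ T : Finset α, T ⊆ U ∧ (∀ i ∈ I, (T ∩ H i).Nonempty) ∧
        (T.card : ℝ) ≤ 1 + (U.card / M : ℝ) * Real.log I.card := by
  intro n
  induction n using Nat.strong_induction_on with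
  | _ n ih =>
    intro I hIn hI hH
    have hIpos : (0 : ℝ) < I.card := by exact_mod_cast hI.card_pos
    have hMR : (0 : ℝ) < M := by exact_mod_cast hM
    obtain ⟨i0, hi0⟩ := hI
    have hUcard : M ≤ U.card := le_trans (hH i0 hi0).2 (card_le_card (hH i0 hi0).1)
    have hUR : (0 : ℝ) < U.card := by exact_mod_cast lt_of_lt_of_le hM hUcard
    -- choose an element hitting many sets
    have hdc : ∑ a ∈ U, (I.filter (fun i => a ∈ H i)).card = ∑ i ∈ I, (H i).card := by
      have h1 : ∀ i ∈ I, (H i).card = (U.filter (fun a => a ∈ H i)).card := by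
        intro i hi
        congr 1
        ext a
        simp only [mem_filter]
        exact ⟨fun h => ⟨(hH i hi).1 h, h⟩, fun h => h.2⟩
      rw [sum_congr rfl h1]
      simp only [card_filter]
      rw [sum_comm]
    have hsum : (M * I.card : ℕ) ≤ ∑ a ∈ U, (I.filter (fun i => a ∈ H i)).card := by
      rw [hdc]
      calc M * I.card = ∑ _i ∈ I, M := by simp [mul_comm]
        _ ≤ _ := sum_le_sum (fun i hi => (hH i hi).2)
    obtain ⟨a, haU, ha⟩ : ∃ a ∈ U, (M * I.card : ℕ) ≤ U.card * (I.filter (fun i => a ∈ H i)).card := by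
      by_contra hcon
      push Not at hcon
      have hlt : ∑ a ∈ U, U.card * (I.filter (fun i => a ∈ H i)).card < ∑ _a ∈ U, M * I.card := by
        apply sum_lt_sum_of_nonempty
        · exact card_pos.mp (lt_of_lt_of_le hM hUcard)
        · exact hcon
      rw [← mul_sum] at hlt
      simp only [sum_const, smul_eq_mul] at hlt
      have := Nat.mul_le_mul_left U.card hsum
      omega
    set I' := I.filter (fun i => a ∉ H i) with hI'
    have hsplit : (I.filter (fun i => a ∈ H i)).card + I'.card = I.card := by
      rw [hI']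
      exact card_filter_add_card_filter_not _
    have hcard : (I'.card : ℝ) ≤ I.card * (1 - M / U.card) := by
      have h1 : (M : ℝ) * I.card ≤ U.card * (I.filter (fun i => a ∈ H i)).card := by exact_mod_cast ha
      have h2 : ((I.filter (fun i => a ∈ H i)).card : ℝ) + I'.card = I.card := by exact_mod_cast hsplit
      have h3 : (M : ℝ) / U.card * I.card ≤ (I.filter (fun i => a ∈ H i)).card := by
        rw [div_mul_eq_mul_div, div_le_iff₀ hUR]
        linarith
      nlinarith
    by_cases hne : I'.Nonempty
    · have hlt : I'.card < n := by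
        have hpos : 0 < (I.filter (fun i => a ∈ H i)).card := by
          rcases Nat.eq_zero_or_pos (I.filter (fun i => a ∈ H i)).card with h0 | h0
          · rw [h0, mul_zero] at ha
            have : 0 < M * I.card := Nat.mul_pos hM (card_pos.mpr ⟨i0, hi0⟩)
            omega
          · exact h0
        omega
      obtain ⟨T, hTU, hT, hTc⟩ := ih I'.card hlt I' rfl hne
        (fun i hi => hH i (mem_filter.mp hi).1)
      refine ⟨insert a T, insert_subset haU hTU, ?_, ?_⟩
      · intro i hi
        by_cases hai : a ∈ H i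
        · exact ⟨a, mem_inter.mpr ⟨mem_insert_self _ _, hai⟩⟩
        · obtain ⟨b, hb⟩ := hT i (mem_filter.mpr ⟨hi, hai⟩)
          rw [mem_inter] at hb
          exact ⟨b, mem_inter.mpr ⟨mem_insert_of_mem hb.1, hb.2⟩⟩
      · have hI'pos : (0 : ℝ) < I'.card := by exact_mod_cast hne.card_pos
        have h1pos : 0 < 1 - (M : ℝ) / U.card := by
          by_contra hcon
          push Not at hcon
          have : (I.card : ℝ) * (1 - M / U.card) ≤ 0 := mul_nonpos_of_nonneg_of_nonpos hIpos.le hcon
          linarith
        have hlog : Real.log I'.card ≤ Real.log I.card - M / U.card := by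
          calc Real.log I'.card ≤ Real.log (I.card * (1 - M / U.card)) :=
                Real.log_le_log hI'pos hcard
            _ = Real.log I.card + Real.log (1 - M / U.card) := Real.log_mul hIpos.ne' h1pos.ne'
            _ ≤ _ := by
                have := Real.log_le_sub_one_of_pos h1pos
                linarith
        have hins : ((insert a T).card : ℝ) ≤ T.card + 1 := by exact_mod_cast card_insert_le a T
        have hmul : (U.card / M : ℝ) * Real.log I'.card ≤ (U.card / M : ℝ) * Real.log I.card - 1 := by
          have h4 := mul_le_mul_of_nonneg_left hlog (div_pos hUR hMR).le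
          have h5 : (U.card / M : ℝ) * (Real.log I.card - M / U.card)
              = (U.card / M : ℝ) * Real.log I.card - 1 := by
            field_simp
          linarith
        linarith
    · refine ⟨{a}, singleton_subset_iff.mpr haU, ?_, ?_⟩
      · intro i hi
        by_cases hai : a ∈ H i
        · exact ⟨a, mem_inter.mpr ⟨mem_singleton_self _, hai⟩⟩
        · exact absurd ⟨i, mem_filter.mpr ⟨hi, hai⟩⟩ hne
      · simp only [card_singleton, Nat.cast_one]
        have : 0 ≤ Real.log I.card := Real.log_natCast_nonneg _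
        have := mul_nonneg (div_pos hUR hMR).le this
        linarith

/-- The same, allowing the empty family. -/
theorem exists_hitting' {α ι : Type*} [DecidableEq α] [DecidableEq ι] (U : Finset α)
    (H : ι → Finset α) (M : ℕ) (hM : 0 < M) (I : Finset ι) (N : ℝ) (hN : 1 ≤ N)
    (hIN : (I.card : ℝ) ≤ N)
    (hH : ∀ i ∈ I, H i ⊆ U ∧ M ≤ (H i).card) :
      ∃ T : Finset α, T ⊆ U ∧ (∀ i ∈ I, (T ∩ H i).Nonempty) ∧
        (T.card : ℝ) ≤ 1 + (U.card / M : ℝ) * Real.log N := by
  rcases I.eq_empty_or_nonempty with h | h
  · subst h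
    refine ⟨∅, empty_subset _, by simp, ?_⟩
    have h1 : 0 ≤ Real.log N := Real.log_nonneg hN
    have h2 : (0:ℝ) ≤ (U.card / M : ℝ) := by positivity
    simp only [card_empty, Nat.cast_zero]
    have := mul_nonneg h2 h1
    linarith
  · obtain ⟨T, h1, h2, h3⟩ := exists_hitting U H M hM I.card I rfl h hH
    refine ⟨T, h1, h2, h3.trans ?_⟩
    have hI : (0:ℝ) < I.card := by exact_mod_cast h.card_pos
    have h4 : Real.log I.card ≤ Real.log N := Real.log_le_log hI hIN
    have h5 : (0:ℝ) ≤ (U.card / M : ℝ) := by positivity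
    have := mul_le_mul_of_nonneg_left h4 h5
    linarith

/-- Greedy `m`-fold hitting set. -/
theorem exists_multihitting {α ι : Type*} [DecidableEq α] [DecidableEq ι] (U : Finset α)
    (H : ι → Finset α) (M : ℕ) (hM : 0 < M) (I : Finset ι) (N : ℝ) (hN : 1 ≤ N)
    (hIN : (I.card : ℝ) ≤ N) (m : ℕ)
    (hH : ∀ i ∈ I, H i ⊆ U ∧ M + m ≤ (H i).card) :
      ∃ T : Finset α, T ⊆ U ∧ (∀ i ∈ I, m ≤ (T ∩ H i).card) ∧
        (T.card : ℝ) ≤ m * (1 + (U.card / M : ℝ) * Real.log N) := by
  induction m with
  | zero => exact ⟨∅, empty_subset _, by simp, by simp⟩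
  | succ m ih =>
    obtain ⟨T, hTU, hT, hTc⟩ := ih (fun i hi => ⟨(hH i hi).1, by have := (hH i hi).2; omega⟩)
    obtain ⟨T', hTU', hT', hTc'⟩ := exists_hitting' U (fun i => H i \ T) M hM
      (I.filter (fun i => (T ∩ H i).card = m)) N hN
      (le_trans (by exact_mod_cast card_filter_le _ _) hIN)
      (by
        intro i hi
        rw [mem_filter] at hi
        refine ⟨sdiff_subset.trans (hH i hi.1).1, ?_⟩
        have h1 := (hH i hi.1).2
        have h2 : (H i \ T).card + (H i ∩ T).card = (H i).card := card_sdiff_add_card_inter _ _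
        rw [inter_comm] at h2
        omega)
    refine ⟨T ∪ T', union_subset hTU hTU', ?_, ?_⟩
    · intro i hi
      by_cases hc : (T ∩ H i).card = m
      · obtain ⟨b, hb⟩ := hT' i (mem_filter.mpr ⟨hi, hc⟩)
        rw [mem_inter, mem_sdiff] at hb
        have hsub : insert b (T ∩ H i) ⊆ (T ∪ T') ∩ H i := by
          intro x hx
          rw [mem_insert] at hx
          rcases hx with rfl | hx
          · exact mem_inter.mpr ⟨mem_union_right _ hb.1, hb.2.1⟩
          · rw [mem_inter] at hx
            exact mem_inter.mpr ⟨mem_union_left _ hx.1, hx.2⟩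
        have hnb : b ∉ T ∩ H i := fun h => hb.2.2 (mem_inter.mp h).1
        have := card_le_card hsub
        rw [card_insert_of_notMem hnb] at this
        omega
      · have h1 := hT i hi
        have h2 : (T ∩ H i).card ≤ ((T ∪ T') ∩ H i).card :=
          card_le_card (inter_subset_inter_right subset_union_left)
        omega
    · have h1 : ((T ∪ T').card : ℝ) ≤ T.card + T'.card := by exact_mod_cast card_union_le _ _
      push_cast
      linarith

/-- Number of small subsets. -/
theorem card_small_subsets (V : Type*) [Fintype V] [DecidableEq V] (k : ℕ) :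
    ((univ : Finset (Finset V)).filter (fun S => S.card ≤ k)).card ≤ (Fintype.card V + 1) ^ k := by
  induction k with
  | zero =>
    simp only [pow_zero, Nat.le_zero, card_eq_zero]
    rw [filter_eq' univ ∅]
    simp
  | succ k ih =>
    have hsub : (univ : Finset (Finset V)).filter (fun S => S.card ≤ k + 1) ⊆
        ((univ : Finset (Option V)) ×ˢ ((univ : Finset (Finset V)).filter (fun S => S.card ≤ k))).image
          (fun p => p.1.elim p.2 (fun v => insert v p.2)) := by
      intro S hS
      rw [mem_filter] at hS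
      rw [mem_image]
      by_cases h : S.card ≤ k
      · exact ⟨(none, S), mem_product.mpr ⟨mem_univ _, mem_filter.mpr ⟨mem_univ _, h⟩⟩, rfl⟩
      · have hpos : 0 < S.card := by omega
        obtain ⟨v, hv⟩ := card_pos.mp hpos
        refine ⟨(some v, S.erase v), mem_product.mpr ⟨mem_univ _, mem_filter.mpr ⟨mem_univ _, ?_⟩⟩, ?_⟩
        · simp only [card_erase_of_mem hv]
          omega
        · simp only [Option.elim_some]
          exact insert_erase hv
    calc _ ≤ _ := card_le_card hsub
      _ ≤ _ := card_image_le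
      _ = (Fintype.card V + 1) * ((univ : Finset (Finset V)).filter (fun S => S.card ≤ k)).card := by
          rw [card_product, card_univ, Fintype.card_option]
      _ ≤ (Fintype.card V + 1) * (Fintype.card V + 1) ^ k := Nat.mul_le_mul_left _ ih
      _ = _ := by rw [pow_succ, mul_comm]

/-- `C(m,k) ≤ λ^k e^{m/λ}`. -/
theorem choose_le_exp (m k : ℕ) (lam : ℝ) (hl : 0 < lam) :
    (m.choose k : ℝ) ≤ lam ^ k * Real.exp (m / lam) := by
  have h1 : (m.choose k : ℝ) ≤ (m : ℝ) ^ k / (k.factorial : ℝ) := Nat.choose_le_pow_div k m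
  have h2 := Real.pow_div_factorial_le_exp ((m : ℝ) / lam) (by positivity) k
  have h3 : (m : ℝ) ^ k / (k.factorial : ℝ) = lam ^ k * (((m : ℝ) / lam) ^ k / (k.factorial : ℝ)) := by
    rw [div_pow]
    field_simp
  rw [h3] at h1
  exact h1.trans (mul_le_mul_of_nonneg_left h2 (by positivity))

end Pool.Agent.Lib.MP_801f88_co
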