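import Pool.Agent.Lib.MP_801f88_co.Basic

set_option autoImplicit false

namespace Pool.Agent.Lib.MP_801f88_co

open Finset

/-- switched de Bruijn digraph -/
def swOut {c : ℕ} (E : Fin c → Fin c → Equiv.Perm (Fin c)) (x : Fin c × Fin c) :
    Finset (Fin c × Fin c) := univ.image (fun k => (E x.1 k x.2, k))

theorem mem_swOut {c : ℕ} (E : Fin c → Fin c → Equiv.Perm (Fin c)) (x z : Fin c × Fin c) :
    z ∈ swOut E x ↔ z.1 = E x.1 z.2 x.2 := by
  rw [swOut, mem_image]
  constructor
  · rintro ⟨k, _, rfl⟩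
    rfl
  · intro h
    exact ⟨z.2, mem_univ _, by rw [← h]⟩

theorem swOut_isCG {c : ℕ} (E : Fin c → Fin c → Equiv.Perm (Fin c))
    (E1 : ∀ i k j, j ≤ i → j < k → E i k j ≤ i ∧ E i k j < k)
    (E2 : ∀ i k j, ¬ (j ≤ i ∧ j < k) → E i k j = j) : IsCG (swOut E) := by
  rintro ⟨i, j⟩ ⟨p, q⟩
  simp only [mem_swOut]
  by_cases hji : j ≤ i
  · by_cases hpj : j < p
    · refine ⟨(E i p j, p), ⟨rfl, ?_⟩, ?_⟩
      · have h1 := (E1 i p j hji hpj).2
        exact (E2 _ _ _ (fun h => absurd h.1 (not_le.mpr h1))).symm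
      · rintro ⟨j', k⟩ ⟨h1, h2⟩
        simp only at h1 h2
        by_cases hk : j < k
        · have h3 := (E1 i k j hji hk).2
          rw [← h1] at h3
          have h4 := E2 j' q k (fun h => absurd h.1 (not_le.mpr h3))
          rw [h4] at h2
          subst h2
          rw [h1]
        · exfalso
          have h3 := E2 i k j (fun h => hk h.2)
          rw [h3] at h1
          subst h1
          rw [not_lt] at hk
          by_cases hkq : k < q
          · have := (E1 j' q k hk hkq).1
            rw [← h2] at this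
            exact absurd hpj (not_lt.mpr this)
          · have := E2 j' q k (fun h => hkq h.2)
            rw [this] at h2
            subst h2
            exact absurd hpj (not_lt.mpr hk)
    · rw [not_lt] at hpj
      set k := (E j q).symm p with hk
      have hkp : E j q k = p := by rw [hk]; exact Equiv.apply_symm_apply _ _
      have hkj : k ≤ j := by
        by_contra hcon
        have := E2 j q k (fun h => hcon h.1)
        rw [this] at hkp
        rw [hkp] at hcon
        exact hcon hpj
      refine ⟨(j, k), ⟨?_, hkp.symm⟩, ?_⟩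
      · exact (E2 i k j (fun h => absurd h.2 (not_lt.mpr hkj))).symm
      · rintro ⟨j', k'⟩ ⟨h1, h2⟩
        simp only at h1 h2
        by_cases hk' : j < k'
        · exfalso
          have h3 := (E1 i k' j hji hk').2
          rw [← h1] at h3
          have h4 := E2 j' q k' (fun h => absurd h.1 (not_le.mpr h3))
          rw [h4] at h2
          subst h2
          exact absurd hk' (not_lt.mpr hpj)
        · have h3 := E2 i k' j (fun h => hk' h.2)
          rw [h3] at h1
          subst h1
          have : k' = k := (E j' q).injective (by rw [← h2, hkp])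
          rw [this]
  · have hE : ∀ k, E i k j = j := fun k => E2 i k j (fun h => hji h.1)
    refine ⟨(j, (E j q).symm p), ⟨(hE _).symm, ?_⟩, ?_⟩
    · exact (Equiv.apply_symm_apply _ _).symm
    · rintro ⟨j', k⟩ ⟨h1, h2⟩
      simp only at h1 h2
      rw [hE] at h1
      subst h1
      rw [h2, Equiv.symm_apply_apply]

theorem swOut_injective {c : ℕ} (E E' : Fin c → Fin c → Equiv.Perm (Fin c))
    (h : swOut E = swOut E') : E = E' := by
  funext i k
  ext j
  have h1 : (E i k j, k) ∈ swOut E (i, j) := (mem_swOut _ _ _).mpr rfl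
  rw [h, mem_swOut] at h1
  exact congrArg Fin.val h1

/-- the free choices -/
abbrev Choice (c : ℕ) : Type := ∀ i k : Fin c, Equiv.Perm {j : Fin c // j ≤ i ∧ j < k}

/-- the family of permutations attached to a choice -/
def Choice.perms {c : ℕ} (P : Choice c) (i k : Fin c) : Equiv.Perm (Fin c) :=
  Equiv.Perm.ofSubtype (P i k)

theorem Choice.isCG {c : ℕ} (P : Choice c) : IsCG (swOut P.perms) := by
  apply swOut_isCG
  · intro i k j h1 h2
    rw [Choice.perms, Equiv.Perm.ofSubtype_apply_of_mem (P i k) (⟨h1, h2⟩ : j ≤ i ∧ j < k)]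
    exact (P i k ⟨j, h1, h2⟩).2
  · intro i k j h
    exact Equiv.Perm.ofSubtype_apply_of_not_mem (P i k) h

theorem Choice.injective (c : ℕ) :
    Function.Injective (fun P : Choice c => swOut P.perms) := by
  intro P P' h
  have h1 := swOut_injective _ _ h
  funext i k
  have h2 := congrFun (congrFun h1 i) k
  exact Equiv.Perm.ofSubtype_injective h2

theorem sum_min (c : ℕ) :
    3 * (∑ i ∈ range c, ∑ k ∈ range c, min (i + 1) k) + c = c ^ 3 := by
  induction c with
  | zero => simp
  | succ c ih =>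
    have h1 : ∑ i ∈ range (c + 1), ∑ k ∈ range (c + 1), min (i + 1) k =
        ∑ i ∈ range c, ∑ k ∈ range c, min (i + 1) k + ∑ i ∈ range c, (i + 1)
          + ∑ k ∈ range (c + 1), k := by
      rw [sum_range_succ]
      congr 1
      · rw [← sum_add_distrib]
        apply sum_congr rfl
        intro i hi
        rw [sum_range_succ]
        rw [mem_range] at hi
        congr 1
        omega
      · apply sum_congr rfl
        intro k hk
        rw [mem_range] at hk
        omega
    have h2 : (∑ i ∈ range c, (i + 1)) = ∑ k ∈ range (c + 1), k := by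
      rw [sum_range_succ' (fun k => k) c]
      simp
    have h3 := Finset.sum_range_id_mul_two (c + 1)
    rw [h1, h2]
    simp only [Nat.add_sub_cancel] at h3
    have h4 : 3 * (∑ i ∈ range c, ∑ k ∈ range c, min (i + 1) k + ∑ k ∈ range (c + 1), k
        + ∑ k ∈ range (c + 1), k) + (c + 1) =
        (3 * (∑ i ∈ range c, ∑ k ∈ range c, min (i + 1) k) + c)
          + 3 * ((∑ k ∈ range (c + 1), k) * 2) + 1 := by ring
    rw [h4, ih, h3]
    ring

theorem log_factorial_ge (m : ℕ) (c : ℝ) (hc : 0 < c) :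
    m * Real.log c - c ≤ Real.log (m.factorial) := by
  have h := Real.pow_div_factorial_le_exp c hc.le m
  have hm : (0 : ℝ) < m.factorial := by exact_mod_cast Nat.factorial_pos m
  rw [div_le_iff₀ hm] at h
  have h2 := Real.log_le_log (by positivity) h
  rw [Real.log_pow, Real.log_mul (Real.exp_pos _).ne' hm.ne', Real.log_exp] at h2
  linarith

theorem card_sub_ge {c : ℕ} (i k : Fin c) :
    min ((i : ℕ) + 1) k ≤ Fintype.card {j : Fin c // j ≤ i ∧ j < k} := by
  have : Fintype.card (Fin (min ((i : ℕ) + 1) k)) ≤ Fintype.card {j : Fin c // j ≤ i ∧ j < k} := by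
    apply Fintype.card_le_of_injective (fun a : Fin (min ((i : ℕ) + 1) k) =>
      (⟨⟨a.1, by have := a.2; omega⟩, by
        have := a.2
        constructor
        · rw [Fin.le_def]; simp only; omega
        · rw [Fin.lt_def]; simp only; omega⟩ : {j : Fin c // j ≤ i ∧ j < k}))
    intro a b h
    simp only [Subtype.mk.injEq, Fin.mk.injEq] at h
    exact Fin.ext h
  rwa [Fintype.card_fin] at this

theorem log_card_choice (c : ℕ) (hc : 0 < c) :
    ((c : ℝ) ^ 3 - c) / 3 * Real.log c - (c : ℝ) ^ 3 ≤ Real.log (Fintype.card (Choice c)) := by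
  have hcR : (0 : ℝ) < c := by exact_mod_cast hc
  have h1 : Fintype.card (Choice c) = ∏ i : Fin c, ∏ k : Fin c,
      (Fintype.card {j : Fin c // j ≤ i ∧ j < k}).factorial := by
    rw [Fintype.card_pi]
    apply prod_congr rfl
    intro i _
    rw [Fintype.card_pi]
    apply prod_congr rfl
    intro k _
    exact Fintype.card_perm
  rw [h1]
  push_cast
  rw [Real.log_prod (fun i _ => prod_ne_zero_iff.mpr (fun k _ => by positivity))]
  have h2 : ∀ i : Fin c, Real.log (∏ k : Fin c,
      ((Fintype.card {j : Fin c // j ≤ i ∧ j < k}).factorial : ℝ)) =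
      ∑ k : Fin c, Real.log ((Fintype.card {j : Fin c // j ≤ i ∧ j < k}).factorial : ℝ) := by
    intro i
    rw [Real.log_prod (fun k _ => by positivity)]
  rw [sum_congr rfl (fun i _ => h2 i)]
  have hlogc : 0 ≤ Real.log c := Real.log_natCast_nonneg _
  have h3 : ∀ i k : Fin c, ((min ((i : ℕ) + 1) k : ℕ) : ℝ) * Real.log c - c ≤
      Real.log ((Fintype.card {j : Fin c // j ≤ i ∧ j < k}).factorial : ℝ) := by
    intro i k
    refine le_trans ?_ (log_factorial_ge _ c hcR)
    have : ((min ((i : ℕ) + 1) k : ℕ) : ℝ) ≤ Fintype.card {j : Fin c // j ≤ i ∧ j < k} := by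
      exact_mod_cast card_sub_ge i k
    have := mul_le_mul_of_nonneg_right this hlogc
    linarith
  have h4 : ∑ i : Fin c, ∑ k : Fin c, (((min ((i : ℕ) + 1) k : ℕ) : ℝ) * Real.log c - c) ≤
      ∑ i : Fin c, ∑ k : Fin c,
        Real.log ((Fintype.card {j : Fin c // j ≤ i ∧ j < k}).factorial : ℝ) :=
    sum_le_sum (fun i _ => sum_le_sum (fun k _ => h3 i k))
  refine le_trans (le_of_eq ?_) h4
  have h5 : ∑ i : Fin c, ∑ k : Fin c, (((min ((i : ℕ) + 1) k : ℕ) : ℝ) * Real.log c - c)
      = (∑ i : Fin c, ∑ k : Fin c, ((min ((i : ℕ) + 1) k : ℕ) : ℝ)) * Real.log c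
        - (c : ℝ) ^ 3 := by
    simp only [sum_sub_distrib, sum_const, card_univ, Fintype.card_fin, nsmul_eq_mul, sum_mul]
    ring
  rw [h5]
  have h6 : (∑ i : Fin c, ∑ k : Fin c, ((min ((i : ℕ) + 1) k : ℕ) : ℝ))
      = ((∑ i ∈ range c, ∑ k ∈ range c, min (i + 1) k : ℕ) : ℝ) := by
    push_cast
    rw [← Fin.sum_univ_eq_sum_range (fun i => ∑ k ∈ range c, min ((i : ℝ) + 1) (k : ℝ)) c]
    apply sum_congr rfl
    intro i _
    rw [← Fin.sum_univ_eq_sum_range (fun k => min ((i : ℝ) + 1) (k : ℝ)) c]
  have h7 := sum_min c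
  have h8 : (3 : ℝ) * ((∑ i ∈ range c, ∑ k ∈ range c, min (i + 1) k : ℕ) : ℝ) + c = (c : ℝ) ^ 3 := by
    exact_mod_cast h7
  rw [h6]
  have h9 : ((∑ i ∈ range c, ∑ k ∈ range c, min (i + 1) k : ℕ) : ℝ) = ((c : ℝ) ^ 3 - c) / 3 := by
    linarith
  rw [h9]

end Pool.Agent.Lib.MP_801f88_co
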