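import Pool.Agent.Lib.MP_801f88_co.Count

set_option autoImplicit false

namespace Pool.Agent.Lib.MP_801f88_co

open Finset

theorem log_c_bound {c : ℕ} (hc : 3 ≤ c) : (1.02 : ℝ) ≤ Real.log c := by
  have h1 : Real.log 3 ≤ Real.log c := Real.log_le_log (by norm_num) (by exact_mod_cast hc)
  have h2 : Real.log 3 = Real.log 2 + Real.log 1.5 := by
    rw [← Real.log_mul (by norm_num) (by norm_num)]; norm_num
  have h3 := Real.one_sub_inv_le_log_of_pos (show (0:ℝ) < 1.5 by norm_num)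
  have h4 := Real.log_two_gt_d9
  norm_num at h3
  linarith

theorem loglog_bound {c : ℕ} (hc : 3 ≤ c) : 1 ≤ 51 * Real.log (Real.log c) := by
  have h1 := log_c_bound hc
  have h2 : Real.log 1.02 ≤ Real.log (Real.log c) := Real.log_le_log (by norm_num) h1
  have h3 := Real.one_sub_inv_le_log_of_pos (show (0:ℝ) < 1.02 by norm_num)
  norm_num at h3
  linarith

theorem real_aux1 (l : ℝ) (hl : 2 ≤ l) : (2 * l ^ 5 + 1) * l ^ 2 ≤ l ^ 9 := by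
  have h1 : (1 : ℝ) ≤ l ^ 5 := one_le_pow₀ (by linarith)
  have h2 : (4 : ℝ) ≤ l ^ 2 := by nlinarith
  have h3 : l ^ 5 * 4 ≤ l ^ 5 * l ^ 2 := mul_le_mul_of_nonneg_left h2 (by positivity)
  have h4 : (2 * l ^ 5 + 1) ≤ l ^ 5 * l ^ 2 := by linarith
  calc (2 * l ^ 5 + 1) * l ^ 2 ≤ (l ^ 5 * l ^ 2) * l ^ 2 :=
        mul_le_mul_of_nonneg_right h4 (by positivity)
    _ = _ := by ring

theorem real_aux2 (c l n1 n2 n3 : ℝ) (hc : 3 ≤ c) (hl : 2 ≤ l) (hl6 : l ^ 6 ≤ 46080 * c)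
    (c1 : n1 ≤ 2 + 3 * c ^ 2 / l) (c2 : n2 ≤ 2 + 4 * c ^ 2 / l)
    (c3 : n3 ≤ 1 + (l ^ 2 + 2 * c / l)) :
    (5 * c ^ 2 + (2 * l ^ 5) * c ^ 2 + n3 * c ^ 2 + c * (n1 + n2)) * (3 * l) ≤ 3000000 * c ^ 3 := by
  have d1 : (5 * c ^ 2 + (2 * l ^ 5) * c ^ 2 + n3 * c ^ 2 + c * (n1 + n2)) * (3 * l) ≤
      (5 * c ^ 2 + (2 * l ^ 5) * c ^ 2 + (1 + (l ^ 2 + 2 * c / l)) * c ^ 2
        + c * ((2 + 3 * c ^ 2 / l) + (2 + 4 * c ^ 2 / l))) * (3 * l) := by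
    gcongr
  have d2 : (5 * c ^ 2 + (2 * l ^ 5) * c ^ 2 + (1 + (l ^ 2 + 2 * c / l)) * c ^ 2
        + c * ((2 + 3 * c ^ 2 / l) + (2 + 4 * c ^ 2 / l))) * (3 * l)
        = 18 * (l * c ^ 2) + 6 * (l ^ 6 * c ^ 2) + 3 * (l ^ 3 * c ^ 2)
          + 12 * (l * c) + 27 * c ^ 3 := by
    field_simp
    ring
  rw [d2] at d1
  refine d1.trans ?_
  have g1 : l ≤ l ^ 6 := by
    have h5 : (1 : ℝ) ≤ l ^ 5 := one_le_pow₀ (by linarith)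
    have : l * 1 ≤ l * l ^ 5 := mul_le_mul_of_nonneg_left h5 (by linarith)
    calc l = l * 1 := (mul_one l).symm
      _ ≤ l * l ^ 5 := this
      _ = _ := by ring
  have g3 : l ^ 3 ≤ l ^ 6 := pow_le_pow_right₀ (by linarith) (by norm_num)
  have hc2 : 0 ≤ c ^ 2 := by positivity
  have hcc : c ≤ c ^ 2 := by nlinarith
  have k1 : l * c ^ 2 ≤ l ^ 6 * c ^ 2 := mul_le_mul_of_nonneg_right g1 hc2
  have k3 : l ^ 3 * c ^ 2 ≤ l ^ 6 * c ^ 2 := mul_le_mul_of_nonneg_right g3 hc2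
  have k4 : l * c ≤ l ^ 6 * c ^ 2 := mul_le_mul g1 hcc (by linarith) (by positivity)
  have k6 : l ^ 6 * c ^ 2 ≤ (46080 * c) * c ^ 2 := mul_le_mul_of_nonneg_right hl6 hc2
  have k7 : (46080 * c) * c ^ 2 = 46080 * c ^ 3 := by ring
  have k8 : 0 ≤ c ^ 3 := by positivity
  linarith

/-- The three real thresholds. -/
theorem thresholds {c l : ℕ} (h3 : 3 ≤ c) (hl2 : 2 ≤ l) (hlL : Real.log c ≤ l) :
    (1 + ((c ^ 2 : ℕ) / ((2 * l ^ 5 + 1) * l ^ 2 : ℕ) : ℝ)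
      * Real.log (((c ^ 2 + 1 : ℕ) : ℝ) ^ (2 * l ^ 5 + 1)) ≤ 1 + 3 * (c : ℝ) ^ 2 / l) ∧
    (1 + ((c ^ 2 : ℕ) / (l ^ 2 : ℕ) : ℝ) * Real.log ((((c ^ 2) ^ 2 : ℕ)) : ℝ) ≤
      1 + 4 * (c : ℝ) ^ 2 / l) ∧
    ((l ^ 2 : ℕ) * (1 + (c / (l ^ 4 : ℕ) : ℝ) * Real.log (c ^ 2 : ℕ)) ≤ (l : ℝ) ^ 2 + 2 * c / l) ∧
    Real.log ((c ^ 2 + 1 : ℕ) : ℝ) ≤ 3 * l := by
  have hcR : (3 : ℝ) ≤ c := by exact_mod_cast h3
  have hc0 : (0 : ℝ) < c := by linarith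
  have hlR : (2 : ℝ) ≤ l := by exact_mod_cast hl2
  have hl0 : (0 : ℝ) < l := by linarith
  have hlog1 : Real.log ((c ^ 2 + 1 : ℕ) : ℝ) ≤ 3 * l := by
    have h1 : ((c ^ 2 + 1 : ℕ) : ℝ) ≤ (c : ℝ) ^ 3 := by push_cast; nlinarith [sq_nonneg ((c:ℝ))]
    calc Real.log ((c ^ 2 + 1 : ℕ) : ℝ) ≤ Real.log ((c : ℝ) ^ 3) :=
          Real.log_le_log (by positivity) h1
      _ = 3 * Real.log c := by rw [Real.log_pow]; push_cast; ring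
      _ ≤ 3 * l := by linarith
  refine ⟨?_, ?_, ?_, hlog1⟩
  · rw [Real.log_pow]
    push_cast at hlog1 ⊢
    have e1 : (c : ℝ) ^ 2 / ((2 * (l : ℝ) ^ 5 + 1) * (l : ℝ) ^ 2) * ((2 * (l : ℝ) ^ 5 + 1) * Real.log ((c : ℝ) ^ 2 + 1))
        = (c : ℝ) ^ 2 / (l : ℝ) ^ 2 * Real.log ((c : ℝ) ^ 2 + 1) := by
      have : (2 * (l : ℝ) ^ 5 + 1) ≠ 0 := by positivity
      field_simp
    rw [e1]
    have e2 : (c : ℝ) ^ 2 / (l : ℝ) ^ 2 * Real.log ((c : ℝ) ^ 2 + 1) ≤ (c : ℝ) ^ 2 / (l : ℝ) ^ 2 * (3 * l) :=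
      mul_le_mul_of_nonneg_left hlog1 (by positivity)
    have e3 : (c : ℝ) ^ 2 / (l : ℝ) ^ 2 * (3 * l) = 3 * (c : ℝ) ^ 2 / l := by
      field_simp
    linarith
  · have e0 : Real.log ((((c ^ 2) ^ 2 : ℕ)) : ℝ) = 4 * Real.log c := by
      push_cast
      rw [← pow_mul, Real.log_pow]
      push_cast; ring
    rw [e0]
    push_cast
    have e2 : (c : ℝ) ^ 2 / (l : ℝ) ^ 2 * (4 * Real.log c) ≤ (c : ℝ) ^ 2 / (l : ℝ) ^ 2 * (4 * l) :=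
      mul_le_mul_of_nonneg_left (by linarith) (by positivity)
    have e3 : (c : ℝ) ^ 2 / (l : ℝ) ^ 2 * (4 * l) = 4 * (c : ℝ) ^ 2 / l := by
      field_simp
    linarith
  · have e0 : Real.log ((c ^ 2 : ℕ) : ℝ) = 2 * Real.log c := by
      push_cast
      rw [Real.log_pow]
      push_cast; ring
    rw [e0]
    push_cast
    have e1 : (l : ℝ) ^ 2 * (1 + (c : ℝ) / (l : ℝ) ^ 4 * (2 * Real.log c))
        = (l : ℝ) ^ 2 + c / (l : ℝ) ^ 2 * (2 * Real.log c) := by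
      field_simp
    rw [e1]
    have e2 : (c : ℝ) / (l : ℝ) ^ 2 * (2 * Real.log c) ≤ (c : ℝ) / (l : ℝ) ^ 2 * (2 * l) :=
      mul_le_mul_of_nonneg_left (by linarith) (by positivity)
    have e3 : (c : ℝ) / (l : ℝ) ^ 2 * (2 * l) = 2 * c / l := by
      field_simp
    linarith

open Classical in
theorem log_card_cg_le {V : Type*} [Fintype V] {c : ℕ} (hc : Fintype.card V = c ^ 2) (h3 : 3 ≤ c) :
    Real.log ((((univ : Finset (V → Finset V)).filter (fun X => IsCG X)).card : ℝ)) ≤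
      (c : ℝ) ^ 3 * Real.log c / 3 + 1000000000 * (c : ℝ) ^ 3 * Real.log (Real.log c) := by
  have hcpos : 0 < c := by omega
  have hcR : (3 : ℝ) ≤ c := by exact_mod_cast h3
  have hc0 : (0 : ℝ) < c := by linarith
  obtain ⟨L, hL⟩ : ∃ L, L = Real.log c := ⟨_, rfl⟩
  have hL1 : (1.02 : ℝ) ≤ L := hL ▸ log_c_bound h3
  have hLL : 1 ≤ 51 * Real.log L := hL ▸ loglog_bound h3
  obtain ⟨l, hl⟩ : ∃ l : ℕ, l = ⌈L⌉₊ := ⟨_, rfl⟩
  have hlL : L ≤ l := hl ▸ Nat.le_ceil L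
  have hlL2 : (l : ℝ) < L + 1 := hl ▸ Nat.ceil_lt_add_one (by linarith)
  have hl2L : (l : ℝ) ≤ 2 * L := by linarith
  have hl2 : 2 ≤ l := by
    have : (1 : ℝ) < l := by linarith
    have : 1 < l := by exact_mod_cast this
    omega
  have hlR : (2 : ℝ) ≤ l := by exact_mod_cast hl2
  have hlpos : 0 < l := by omega
  obtain ⟨t1, t2, t3, t4⟩ := thresholds h3 hl2 (hL ▸ hlL)
  have hK : l * (l ^ 4 + l ^ 2) ≤ 2 * l ^ 5 := by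
    have : l ^ 3 ≤ l ^ 5 := Nat.pow_le_pow_right hlpos (by norm_num)
    nlinarith
  have hMpos : 0 < (2 * l ^ 5 + 1) * l ^ 2 := by positivity
  have hKM : ((2 * l ^ 5 : ℕ) : ℝ) ≤ (((2 * l ^ 5 + 1) * l ^ 2 : ℕ) : ℝ) := by
    have : 2 * l ^ 5 ≤ (2 * l ^ 5 + 1) * l ^ 2 := by
      have h1 : 1 ≤ l ^ 2 := Nat.one_le_pow _ _ hlpos
      nlinarith
    exact_mod_cast this
  obtain ⟨b1, hb1⟩ : ∃ b1, b1 = 1 + ((c ^ 2 : ℕ) / ((2 * l ^ 5 + 1) * l ^ 2 : ℕ) : ℝ)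
      * Real.log (((c ^ 2 + 1 : ℕ) : ℝ) ^ (2 * l ^ 5 + 1)) := ⟨_, rfl⟩
  obtain ⟨b2, hb2⟩ : ∃ b2, b2 = 1 + ((c ^ 2 : ℕ) / (l ^ 2 : ℕ) : ℝ) *
      Real.log ((((c ^ 2) ^ 2 : ℕ)) : ℝ) := ⟨_, rfl⟩
  obtain ⟨b3, hb3⟩ : ∃ b3, b3 = (l ^ 2 : ℕ) * (1 + (c / (l ^ 4 : ℕ) : ℝ) * Real.log (c ^ 2 : ℕ)) :=
    ⟨_, rfl⟩
  rw [← hb1] at t1
  rw [← hb2] at t2
  rw [← hb3] at t3
  have hb1nn : 0 ≤ b1 := by
    rw [hb1]
    have : 0 ≤ Real.log (((c ^ 2 + 1 : ℕ) : ℝ) ^ (2 * l ^ 5 + 1)) := by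
      rw [Real.log_pow]
      exact mul_nonneg (Nat.cast_nonneg _) (Real.log_natCast_nonneg _)
    positivity
  have hb2nn : 0 ≤ b2 := by
    rw [hb2]
    have : 0 ≤ Real.log ((((c ^ 2) ^ 2 : ℕ)) : ℝ) := Real.log_natCast_nonneg _
    positivity
  have hb3nn : 0 ≤ b3 := by
    rw [hb3]
    have : 0 ≤ Real.log ((c ^ 2 : ℕ) : ℝ) := Real.log_natCast_nonneg _
    positivity
  have key := card_cg_le hc hcpos (2 * l ^ 5) l ((2 * l ^ 5 + 1) * l ^ 2) (l ^ 2) (l ^ 4)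
    ⌈b3⌉₊ ⌈b1⌉₊ ⌈b2⌉₊ hlpos hMpos (by positivity) (by positivity) hK
    (hb1 ▸ Nat.le_ceil b1) (hb2 ▸ Nat.le_ceil b2) (hb3 ▸ Nat.le_ceil b3)
    (((2 * l ^ 5 + 1) * l ^ 2 : ℕ) : ℝ)
    (by exact_mod_cast hMpos) le_rfl hKM
  have hlogM : Real.log (((2 * l ^ 5 + 1) * l ^ 2 : ℕ) : ℝ) ≤ 9 * Real.log l := by
    have e1 : (((2 * l ^ 5 + 1) * l ^ 2 : ℕ) : ℝ) ≤ (l : ℝ) ^ 9 := by
      push_cast
      exact real_aux1 l hlR
    calc Real.log (((2 * l ^ 5 + 1) * l ^ 2 : ℕ) : ℝ) ≤ Real.log ((l : ℝ) ^ 9) :=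
          Real.log_le_log (by exact_mod_cast hMpos) e1
      _ = _ := by rw [Real.log_pow]; push_cast; ring
  have hlogl : Real.log l ≤ 1 + Real.log L := by
    calc Real.log l ≤ Real.log (2 * L) := Real.log_le_log (by linarith) hl2L
      _ = Real.log 2 + Real.log L := Real.log_mul (by norm_num) (by linarith)
      _ ≤ 1 + Real.log L := by
          have := Real.log_two_lt_d9
          linarith
  have hl6 : (l : ℝ) ^ 6 ≤ 46080 * c := by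
    have e1 : (l : ℝ) ^ 6 ≤ (2 * L) ^ 6 := by gcongr
    have e2 := Real.pow_div_factorial_le_exp L (by linarith) 6
    rw [hL, Real.exp_log hc0, ← hL] at e2
    have e3 : (Nat.factorial 6 : ℝ) = 720 := by norm_num [Nat.factorial]
    rw [e3, div_le_iff₀ (by norm_num)] at e2
    calc (l : ℝ) ^ 6 ≤ (2 * L) ^ 6 := e1
      _ = 64 * L ^ 6 := by ring
      _ ≤ 64 * (c * 720) := by linarith
      _ = _ := by ring
  have hexp : (((5 * c ^ 2 + (2 * l ^ 5) * c ^ 2 + ⌈b3⌉₊ * c ^ 2 + c * (⌈b1⌉₊ + ⌈b2⌉₊) : ℕ)) : ℝ)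
      * (3 * l) ≤ 3000000 * (c : ℝ) ^ 3 := by
    have c1 : ((⌈b1⌉₊ : ℕ) : ℝ) ≤ 2 + 3 * (c : ℝ) ^ 2 / l := by
      have := Nat.ceil_lt_add_one hb1nn
      linarith
    have c2 : ((⌈b2⌉₊ : ℕ) : ℝ) ≤ 2 + 4 * (c : ℝ) ^ 2 / l := by
      have := Nat.ceil_lt_add_one hb2nn
      linarith
    have c3 : ((⌈b3⌉₊ : ℕ) : ℝ) ≤ 1 + ((l : ℝ) ^ 2 + 2 * c / l) := by
      have := Nat.ceil_lt_add_one hb3nn
      linarith
    push_cast
    exact real_aux2 c l _ _ _ hcR hlR hl6 c1 c2 c3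
  have hc3 : (0 : ℝ) ≤ (c : ℝ) ^ 3 := by positivity
  rw [← hL]
  by_cases hA0 : ((univ : Finset (V → Finset V)).filter (fun X => IsCG X)).card = 0
  · rw [hA0]
    simp only [Nat.cast_zero, Real.log_zero]
    have h1 : 0 ≤ Real.log L := by linarith
    have h2 : 0 ≤ L := by linarith
    positivity
  · have hApos : (0 : ℝ) < ((univ : Finset (V → Finset V)).filter (fun X => IsCG X)).card := by
      exact_mod_cast Nat.pos_of_ne_zero hA0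
    have hlogkey := Real.log_le_log hApos key
    rw [Real.log_mul (Real.exp_pos _).ne' (by positivity), Real.log_exp, ← hL] at hlogkey
    refine hlogkey.trans ?_
    have s1 : Real.log (((c ^ 2 + 1) ^ (5 * c ^ 2 + (2 * l ^ 5) * c ^ 2 + ⌈b3⌉₊ * c ^ 2
        + c * (⌈b1⌉₊ + ⌈b2⌉₊)) : ℕ) : ℝ) ≤ 3000000 * (c : ℝ) ^ 3 := by
      rw [Nat.cast_pow, Real.log_pow]
      refine le_trans (mul_le_mul_of_nonneg_left t4 (Nat.cast_nonneg _)) hexp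
    have s2 : (c : ℝ) ^ 3 / l * L ≤ (c : ℝ) ^ 3 := by
      rw [div_mul_eq_mul_div, div_le_iff₀ (by linarith)]
      exact mul_le_mul_of_nonneg_left hlL hc3
    have s3 : (c : ℝ) ^ 3 * Real.log (((2 * l ^ 5 + 1) * l ^ 2 : ℕ) : ℝ) ≤
        (c : ℝ) ^ 3 * (9 * (1 + Real.log L)) :=
      mul_le_mul_of_nonneg_left (by linarith) hc3
    have s4 : (c : ℝ) ^ 3 * 1 ≤ (c : ℝ) ^ 3 * (51 * Real.log L) :=
      mul_le_mul_of_nonneg_left hLL hc3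
    have s5 : ((c : ℝ) ^ 3 / 3 + (c : ℝ) ^ 3 / l) * L = (c : ℝ) ^ 3 * L / 3 + (c : ℝ) ^ 3 / l * L := by
      ring
    rw [s5]
    have s6 : (c : ℝ) ^ 3 * (9 * (1 + Real.log L)) = 9 * (c : ℝ) ^ 3 + 9 * ((c : ℝ) ^ 3 * Real.log L) := by
      ring
    have s7 : 0 ≤ (c : ℝ) ^ 3 * Real.log L := mul_nonneg hc3 (by linarith)
    linarith

open Classical in
theorem natCard_cg_eq (V : Type*) [Fintype V] : Nat.card {X : V → Finset V // IsCG X} =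
    ((univ : Finset (V → Finset V)).filter (fun X => IsCG X)).card := by
  rw [Nat.card_eq_fintype_card, Fintype.card_subtype]

theorem log_natCard_cg_le {V : Type*} [Fintype V] {c : ℕ} (hc : Fintype.card V = c ^ 2)
    (h3 : 3 ≤ c) : Real.log (Nat.card {X : V → Finset V // IsCG X}) ≤
      (c : ℝ) ^ 3 * Real.log c / 3 + 1000000000 * (c : ℝ) ^ 3 * Real.log (Real.log c) := by
  rw [natCard_cg_eq V]
  exact log_card_cg_le hc h3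

end Pool.Agent.Lib.MP_801f88_co
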