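import Pool.Agent.Lib.MP_801f88_co.Defs
import Pool.Agent.Lib.MP_801f88_co.Upper
import Pool.Agent.Lib.MP_801f88_co.Lower

set_option autoImplicit false

namespace Pool.Agent.Lib.MP_801f88_co

open Finset

/-- out-neighbourhoods of a matrix -/
def outN {n : ℕ} (A : Matrix (Fin n) (Fin n) ℤ) (i : Fin n) : Finset (Fin n) :=
  univ.filter (fun j => A i j = 1)

/-- adjacency matrix -/
def adj {n : ℕ} (X : Fin n → Finset (Fin n)) : Matrix (Fin n) (Fin n) ℤ :=
  Matrix.of (fun i j => if j ∈ X i then 1 else 0)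

theorem outN_adj {n : ℕ} (X : Fin n → Finset (Fin n)) : outN (adj X) = X := by
  funext i
  ext j
  simp [outN, adj]

theorem adj_outN {n : ℕ} (A : Matrix (Fin n) (Fin n) ℤ) (hA : ∀ i j, A i j = 0 ∨ A i j = 1) :
    adj (outN A) = A := by
  ext i j
  rcases hA i j with h | h <;> simp [outN, adj, h]

theorem adj_sq {n : ℕ} (X : Fin n → Finset (Fin n)) (i j : Fin n) :
    (adj X * adj X) i j = (((X i).filter (fun z => j ∈ X z)).card : ℤ) := by
  rw [Matrix.mul_apply, card_filter]
  push_cast
  have h1 : ∀ z, adj X i z * adj X z j = if z ∈ X i then (if j ∈ X z then 1 else 0) else 0 := by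
    intro z
    simp only [adj, Matrix.of_apply]
    split_ifs <;> simp
  rw [sum_congr rfl (fun z _ => h1 z), ← sum_filter]
  congr 1
  ext z
  simp

theorem isCG_iff {n : ℕ} (X : Fin n → Finset (Fin n)) :
    IsCG X ↔ adj X * adj X = Matrix.of (fun _ _ => 1) := by
  constructor
  · intro h
    ext i j
    rw [adj_sq, h.filter_card]
    simp
  · intro h i j
    have h1 : (adj X * adj X) i j = 1 := by rw [h]; rfl
    rw [adj_sq] at h1
    have h2 : ((X i).filter (fun z => j ∈ X z)).card = 1 := by exact_mod_cast h1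
    rw [card_eq_one] at h2
    obtain ⟨z, hz⟩ := h2
    have h3 : ∀ w, w ∈ (X i).filter (fun z => j ∈ X z) ↔ w = z := by
      intro w; rw [hz, mem_singleton]
    simp only [mem_filter] at h3
    exact ⟨z, (h3 z).mpr rfl, fun w hw => (h3 w).mp hw⟩

/-- solutions are the same thing as systems of out-neighbourhoods -/
def solEquiv (c : ℕ) : {A // IsSolution c A} ≃ {X : Fin (c ^ 2) → Finset (Fin (c ^ 2)) // IsCG X} where
  toFun A := ⟨outN A.1, by rw [isCG_iff, adj_outN _ A.2.1]; exact A.2.2⟩
  invFun X := ⟨adj X.1, by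
    refine ⟨fun i j => ?_, (isCG_iff _).mp X.2⟩
    simp only [adj, Matrix.of_apply]
    split_ifs
    · exact Or.inr rfl
    · exact Or.inl rfl⟩
  left_inv A := Subtype.ext (adj_outN _ A.2.1)
  right_inv X := Subtype.ext (outN_adj _)

theorem finite_sol (c : ℕ) : Finite {A // IsSolution c A} := Finite.of_equiv _ (solEquiv c).symm

theorem submatrix_isSolution {c : ℕ} {A : Matrix (Fin (c ^ 2)) (Fin (c ^ 2)) ℤ}
    (hA : IsSolution c A) (s : Equiv.Perm (Fin (c ^ 2))) : IsSolution c (A.submatrix s s) := by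
  refine ⟨fun i j => hA.1 _ _, ?_⟩
  rw [Matrix.submatrix_mul_equiv, hA.2]
  rfl

/-- transport of a system along an equivalence of the vertex set -/
theorem IsCG.transport {V W : Type*} [DecidableEq V] [DecidableEq W] (e : V ≃ W) {X : V → Finset V}
    (hX : IsCG X) : IsCG (fun w => (X (e.symm w)).map e.toEmbedding) := by
  intro x y
  obtain ⟨z, hz, hu⟩ := hX (e.symm x) (e.symm y)
  refine ⟨e z, ⟨?_, ?_⟩, ?_⟩
  · exact mem_map.mpr ⟨z, hz.1, rfl⟩
  · show y ∈ (X (e.symm (e z))).map e.toEmbedding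
    rw [e.symm_apply_apply]
    exact mem_map.mpr ⟨e.symm y, hz.2, by simp⟩
  · rintro w ⟨h1, h2⟩
    rw [mem_map_equiv] at h1 h2
    have := hu (e.symm w) ⟨h1, h2⟩
    rw [← this, e.apply_symm_apply]

theorem log_numClasses_lower (c : ℕ) (h3 : 3 ≤ c) :
    (c : ℝ) ^ 3 * Real.log c / 3 - 5 * (c : ℝ) ^ 3 ≤ Real.log (numClasses c) := by
  classical
  have hc : 0 < c := by omega
  have hcR : (3 : ℝ) ≤ c := by exact_mod_cast h3
  have := finite_sol c
  -- choices inject into solutions
  have h1 : Fintype.card (Choice c) ≤ Nat.card {A // IsSolution c A} := by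
    rw [← Nat.card_eq_fintype_card]
    let e : (Fin c × Fin c) ≃ Fin (c ^ 2) := finProdFinEquiv.trans (finCongr (by ring))
    apply Nat.card_le_card_of_injective (fun P : Choice c => (solEquiv c).symm
      ⟨_, (P.isCG).transport e⟩)
    intro P P' h
    apply Choice.injective c
    have h2 := congrArg Subtype.val ((solEquiv c).symm.injective h)
    simp only at h2 ⊢
    funext x
    have h3 := congrFun h2 (e x)
    simp only [Equiv.symm_apply_apply] at h3
    exact map_injective _ h3
  -- classes are small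
  have h2 : Nat.card {A // IsSolution c A} ≤ numClasses c * (c ^ 2).factorial := by
    have : Nat.card (Quotient (solutionSetoid c) × Equiv.Perm (Fin (c ^ 2)))
        = numClasses c * (c ^ 2).factorial := by
      rw [Nat.card_prod, numClasses]
      congr 1
      rw [Nat.card_eq_fintype_card, Fintype.card_perm, Fintype.card_fin]
    rw [← this]
    apply Nat.card_le_card_of_surjective (fun p : Quotient (solutionSetoid c) × Equiv.Perm (Fin (c ^ 2)) =>
      (⟨(p.1.out).1.submatrix p.2 p.2, submatrix_isSolution p.1.out.2 p.2⟩ : {A // IsSolution c A}))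
    intro A
    have h3 : (solutionSetoid c).r (Quotient.out (Quotient.mk (solutionSetoid c) A)) A :=
      Quotient.exact (Quotient.out_eq _)
    obtain ⟨s, hs⟩ := (permEquivalent_iff _ _).mp h3
    exact ⟨(Quotient.mk (solutionSetoid c) A, s), Subtype.ext hs.symm⟩
  have h4 : Fintype.card (Choice c) ≤ numClasses c * (c ^ 2).factorial := h1.trans h2
  have h5 : 0 < Fintype.card (Choice c) := Fintype.card_pos_iff.mpr ⟨fun _ _ => 1⟩
  have h6 : 0 < numClasses c := by
    rcases Nat.eq_zero_or_pos (numClasses c) with h | h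
    · rw [h] at h4; omega
    · exact h
  have h7 : Real.log (Fintype.card (Choice c)) ≤ Real.log (numClasses c)
      + Real.log ((c ^ 2).factorial) := by
    rw [← Real.log_mul (by exact_mod_cast h6.ne') (by positivity)]
    apply Real.log_le_log (by exact_mod_cast h5)
    exact_mod_cast h4
  have h8 : Real.log ((c ^ 2).factorial) ≤ 2 * (c : ℝ) ^ 2 * Real.log c := by
    have : ((c ^ 2).factorial : ℝ) ≤ ((c : ℝ) ^ 2) ^ (c ^ 2) := by
      exact_mod_cast Nat.factorial_le_pow (c ^ 2)
    have h9 := Real.log_le_log (by positivity) this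
    rw [Real.log_pow, Real.log_pow] at h9
    push_cast at h9
    linarith
  have h9 := log_card_choice c hc
  have hlogc : Real.log c ≤ c := (Real.log_le_sub_one_of_pos (by linarith)).trans (by linarith)
  have hlognn : 0 ≤ Real.log c := Real.log_natCast_nonneg _
  have h10 : (c : ℝ) ^ 2 * Real.log c ≤ (c : ℝ) ^ 3 := by
    calc (c : ℝ) ^ 2 * Real.log c ≤ (c : ℝ) ^ 2 * c := mul_le_mul_of_nonneg_left hlogc (by positivity)
      _ = _ := by ring
  have h11 : (c : ℝ) * Real.log c ≤ (c : ℝ) ^ 2 * Real.log c := by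
    apply mul_le_mul_of_nonneg_right _ hlognn
    nlinarith
  have h12 : ((c : ℝ) ^ 3 - c) / 3 * Real.log c = (c : ℝ) ^ 3 * Real.log c / 3 - (c * Real.log c) / 3 := by
    ring
  rw [h12] at h9
  nlinarith [show (0 : ℝ) ≤ (c : ℝ) ^ 3 by positivity]

theorem log_numClasses_upper (c : ℕ) (h3 : 3 ≤ c) :
    Real.log (numClasses c) ≤
      (c : ℝ) ^ 3 * Real.log c / 3 + 1000000000 * (c : ℝ) ^ 3 * Real.log (Real.log c) := by
  have hfin := finite_sol c
  have h0 := log_natCard_cg_le (V := Fin (c ^ 2)) (c := c) (Fintype.card_fin _) h3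
  have h1 : numClasses c ≤ Nat.card {A // IsSolution c A} :=
    Nat.card_le_card_of_surjective _ (Quotient.mk_surjective)
  rw [Nat.card_congr (solEquiv c)] at h1
  rcases Nat.eq_zero_or_pos (numClasses c) with h | h
  · rw [h]
    simp only [Nat.cast_zero, Real.log_zero]
    have h5 := loglog_bound h3
    have hlognn : 0 ≤ Real.log c := Real.log_natCast_nonneg _
    have h6 : 0 ≤ Real.log (Real.log c) := by linarith
    positivity
  · exact le_trans (Real.log_le_log (Nat.cast_pos.mpr h) (Nat.cast_le.mpr h1)) h0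

theorem main : ∃ C : ℝ, ∀ c : ℕ, 3 ≤ c →
    (c : ℝ) ^ 3 * Real.log c / 3 - C * (c : ℝ) ^ 3 ≤ Real.log (numClasses c) ∧
    Real.log (numClasses c) ≤
      (c : ℝ) ^ 3 * Real.log c / 3 + C * (c : ℝ) ^ 3 * Real.log (Real.log c) := by
  refine ⟨1000000000, fun c hc => ⟨?_, log_numClasses_upper c hc⟩⟩
  have h1 := log_numClasses_lower c hc
  have h2 : (0 : ℝ) ≤ (c : ℝ) ^ 3 := by positivity
  linarith

end Pool.Agent.Lib.MP_801f88_co
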