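import Pool.Agent.Lib.MP_801f88_co.Hit
import Pool.Agent.Lib.MP_801f88_co.Basic

set_option autoImplicit false

namespace Pool.Agent.Lib.MP_801f88_co

open Finset

variable {V : Type*} [Fintype V] [DecidableEq V]

/-- vertices whose out-neighbourhood meets `D` in at least `c/K` points -/
def heavy (X : V → Finset V) (c K : ℕ) (D : Finset V) : Finset V :=
  univ.filter (fun z => c ≤ K * (X z ∩ D).card)

/-- what is left of `X z` after removing the out-neighbourhoods of the vertices in `S` -/
def rest (X : V → Finset V) (z : V) (S : Finset V) : Finset V := X z \ S.biUnion X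

theorem exists_F1 {X : V → Finset V} (hX : IsCG X) {c : ℕ} (hc : Fintype.card V = c ^ 2)
    (hcpos : 0 < c) (K l M : ℕ) (hM : 0 < M) :
    ∃ F : Finset V, (F.card : ℝ) ≤ 1 + ((c ^ 2 : ℕ) / M : ℝ) * Real.log (((c ^ 2 + 1 : ℕ) : ℝ) ^ (K + 1)) ∧
      ∀ z, ∃ S, S ⊆ F ∧ S.card ≤ K ∧ (l * (rest X z S).card < c ∨ (heavy X c K (rest X z S)).card < M) := by
  classical
  set I : Finset (V × Finset V) :=
    ((univ : Finset V) ×ˢ (univ : Finset (Finset V)).filter (fun S => S.card ≤ K)).filter
      (fun p => M ≤ (heavy X c K (rest X p.1 p.2)).card) with hI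
  have hIcard : (I.card : ℝ) ≤ ((c ^ 2 + 1 : ℕ) : ℝ) ^ (K + 1) := by
    have h1 : I.card ≤ (c ^ 2 + 1) ^ (K + 1) := by
      calc I.card ≤ _ := card_filter_le _ _
        _ = c ^ 2 * _ := by rw [card_product, card_univ, hc]
        _ ≤ c ^ 2 * (c ^ 2 + 1) ^ K := by
            apply Nat.mul_le_mul_left
            have := card_small_subsets V K
            rwa [hc] at this
        _ ≤ (c ^ 2 + 1) * (c ^ 2 + 1) ^ K := Nat.mul_le_mul_right _ (Nat.le_succ _)
        _ = (c ^ 2 + 1) ^ (K + 1) := (pow_succ' _ _).symm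
    exact_mod_cast h1
  obtain ⟨F, _, hF, hFc⟩ := exists_hitting' (univ : Finset V)
    (fun p : V × Finset V => heavy X c K (rest X p.1 p.2)) M hM I _
    (one_le_pow₀ (by push_cast; nlinarith [sq_nonneg (c : ℝ)])) hIcard
    (fun p hp => ⟨subset_univ _, (mem_filter.mp hp).2⟩)
  rw [card_univ, hc] at hFc
  refine ⟨F, hFc, ?_⟩
  intro z
  -- maximal admissible S
  set P : Finset (Finset V) := F.powerset.filter
    (fun S => K * (rest X z S).card + c * S.card ≤ K * c) with hP
  have hPne : P.Nonempty := by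
    refine ⟨∅, ?_⟩
    rw [hP, mem_filter, mem_powerset]
    refine ⟨empty_subset _, ?_⟩
    have : (rest X z ∅).card = c := by
      rw [rest, biUnion_empty, sdiff_empty, hX.card_eq hc]
    rw [this, card_empty]
    omega
  obtain ⟨S, hSP, hSmax⟩ := exists_max_image P card hPne
  rw [hP, mem_filter, mem_powerset] at hSP
  obtain ⟨hSF, hSK⟩ := hSP
  have hSKc : S.card ≤ K := by
    have : c * S.card ≤ c * K := by
      rw [mul_comm c K]; omega
    exact Nat.le_of_mul_le_mul_left this hcpos
  refine ⟨S, hSF, hSKc, ?_⟩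
  by_contra hcon
  push Not at hcon
  obtain ⟨_, hheavy⟩ := hcon
  have hmem : (z, S) ∈ I := by
    rw [hI, mem_filter, mem_product, mem_filter]
    exact ⟨⟨mem_univ _, mem_univ _, hSKc⟩, hheavy⟩
  obtain ⟨w, hw⟩ := hF _ hmem
  rw [mem_inter] at hw
  obtain ⟨hwF, hwh⟩ := hw
  simp only [heavy, mem_filter, mem_univ, true_and] at hwh
  have hwS : w ∉ S := by
    intro hwS
    have : X w ∩ rest X z S = ∅ := by
      rw [← disjoint_iff_inter_eq_empty, disjoint_left]
      intro a ha ha'
      rw [rest, mem_sdiff, mem_biUnion] at ha'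
      exact ha'.2 ⟨w, hwS, ha⟩
    rw [this, card_empty] at hwh
    omega
  have hrest : rest X z (insert w S) = rest X z S \ X w := by
    ext a
    simp only [rest, mem_sdiff, mem_biUnion, mem_insert, exists_eq_or_imp, not_or]
    tauto
  have hcardrest : (rest X z (insert w S)).card + (X w ∩ rest X z S).card = (rest X z S).card := by
    rw [hrest, inter_comm]
    exact card_sdiff_add_card_inter _ _
  have hins : insert w S ∈ P := by
    rw [hP, mem_filter, mem_powerset]
    refine ⟨insert_subset hwF hSF, ?_⟩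
    rw [card_insert_of_notMem hwS]
    have h2 : K * (rest X z (insert w S)).card + K * (X w ∩ rest X z S).card
        = K * (rest X z S).card := by rw [← mul_add, hcardrest]
    have h3 : c * (S.card + 1) = c * S.card + c := by ring
    omega
  have := hSmax _ hins
  rw [card_insert_of_notMem hwS] at this
  omega

theorem exists_T0 {X : V → Finset V} (hX : IsCG X) {c : ℕ} (hc : Fintype.card V = c ^ 2)
    (hcpos : 0 < c) (K l m M0 : ℕ) (hM0 : 0 < M0) (hK : l * (M0 + m) ≤ K)
    (N : Finset V) (D : V → Finset V) (hD : ∀ z ∈ N, c ≤ l * (D z).card) (x : V) :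
    ∃ T ⊆ X x, (T.card : ℝ) ≤ m * (1 + (c / M0 : ℝ) * Real.log (c ^ 2 : ℕ)) ∧
      ∀ z ∈ N, (∀ w ∈ X x, w ∉ heavy X c K (D z)) → m ≤ (D z ∩ T.biUnion X).card := by
  classical
  obtain ⟨T, hTx, hT, hTc⟩ := exists_multihitting (X x)
    (fun z => (X x).filter (fun w => (X w ∩ D z).Nonempty)) M0 hM0
    (N.filter (fun z => ∀ w ∈ X x, w ∉ heavy X c K (D z))) ((c ^ 2 : ℕ) : ℝ)
    (by exact_mod_cast Nat.one_le_iff_ne_zero.mpr (by positivity))
    (by
      have : (N.filter (fun z => ∀ w ∈ X x, w ∉ heavy X c K (D z))).card ≤ c ^ 2 := by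
        rw [← hc]; exact card_le_univ _
      exact_mod_cast this) m
    (by
      intro z hz
      rw [mem_filter] at hz
      refine ⟨filter_subset _ _, ?_⟩
      set H := (X x).filter (fun w => (X w ∩ D z).Nonempty) with hH
      have h1 : (D z).card = ∑ w ∈ H, (X w ∩ D z).card := by
        rw [← hX.sum_inter x (D z), hH, sum_filter]
        apply sum_congr rfl
        intro w _
        by_cases h : (X w ∩ D z).Nonempty
        · simp [h]
        · rw [if_neg h, not_nonempty_iff_eq_empty.mp h, card_empty]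
      have h2 : K * (D z).card ≤ H.card * c := by
        rw [h1, mul_sum]
        calc ∑ w ∈ H, K * (X w ∩ D z).card ≤ ∑ _w ∈ H, c := by
              apply sum_le_sum
              intro w hw
              rw [hH, mem_filter] at hw
              have := hz.2 w hw.1
              simp only [heavy, mem_filter, mem_univ, true_and, not_le] at this
              exact this.le
          _ = H.card * c := by simp
      have h3 := hD z hz.1
      have h4 : K * c ≤ (l * H.card) * c := by
        calc K * c ≤ K * (l * (D z).card) := Nat.mul_le_mul_left _ h3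
          _ = l * (K * (D z).card) := by ring
          _ ≤ l * (H.card * c) := Nat.mul_le_mul_left _ h2
          _ = _ := by ring
      have h5 : K ≤ l * H.card := Nat.le_of_mul_le_mul_right h4 hcpos
      have h6 : l * (M0 + m) ≤ l * H.card := hK.trans h5
      rcases Nat.eq_zero_or_pos l with h0 | h0
      · subst h0
        simp at h3
        omega
      · exact Nat.le_of_mul_le_mul_left h6 h0)
  rw [hX.card_eq hc] at hTc
  refine ⟨T, hTx, hTc, ?_⟩
  intro z hz hzw
  refine (hT z (mem_filter.mpr ⟨hz, hzw⟩)).trans ?_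
  -- choose an element of each overlap
  have hch : ∀ w ∈ T ∩ (X x).filter (fun w => (X w ∩ D z).Nonempty), ∃ y, y ∈ X w ∩ D z := by
    intro w hw
    rw [mem_inter, mem_filter] at hw
    exact hw.2.2
  choose! f hf using hch
  apply card_le_card_of_injOn f
  · intro w hw
    rw [mem_coe] at hw
    have h1 := hf w hw
    rw [mem_inter] at h1 hw
    rw [mem_coe, mem_inter, mem_biUnion]
    exact ⟨h1.2, w, hw.1, h1.1⟩
  · intro w hw w' hw' hww
    rw [mem_coe] at hw hw'
    have h1 := hf w hw
    have h2 := hf w' hw'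
    rw [mem_inter] at h1 h2 hw hw'
    rw [mem_filter] at hw hw'
    by_contra hne
    have := hX.disj hw.2.1 hw'.2.1 hne
    rw [disjoint_left] at this
    rw [← hww] at h2
    exact this h1.1 h2.1

/-- candidates for membership in row `x` -/
def cand (N F : Finset V) (T : Finset V) (Q : V → Finset V) : Finset V :=
  N.filter (fun z => ∀ w ∈ T, w ≠ z → (Q w ∩ F) ∩ (Q z ∩ F) = ∅)

theorem exists_structure {X : V → Finset V} (hX : IsCG X) {c : ℕ} (hc : Fintype.card V = c ^ 2)
    (hcpos : 0 < c) (K l M m M0 : ℕ) (hM : 0 < M) (hm : 0 < m) (hM0 : 0 < M0)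
    (hK : l * (M0 + m) ≤ K) :
    ∃ (F1 F2 N : Finset V) (S T : V → Finset V),
      (F1.card : ℝ) ≤ 1 + ((c ^ 2 : ℕ) / M : ℝ) * Real.log (((c ^ 2 + 1 : ℕ) : ℝ) ^ (K + 1)) ∧
      (F2.card : ℝ) ≤ 1 + ((c ^ 2 : ℕ) / m : ℝ) * Real.log ((((c ^ 2) ^ 2 : ℕ)) : ℝ) ∧
      (∀ z, S z ⊆ F1 ∧ (S z).card ≤ K) ∧
      (∀ z, z ∉ N → l * (X z \ (S z).biUnion X).card < c) ∧
      (∀ x, T x ⊆ X x) ∧
      (∀ x, ((T x).card : ℝ) ≤ m * (1 + (c / M0 : ℝ) * Real.log (c ^ 2 : ℕ))) ∧
      ∑ x : V, (cand N F2 (T x) X).card ≤ c * (c ^ 2 * M) := by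
  classical
  obtain ⟨F1, hF1, hS⟩ := exists_F1 hX hc hcpos K l M hM
  choose S hSF hSK hSd using hS
  set N : Finset V := univ.filter (fun z => c ≤ l * (rest X z (S z)).card) with hN
  set D : V → Finset V := fun z => rest X z (S z) with hDdef
  have hD : ∀ z ∈ N, c ≤ l * (D z).card := by
    intro z hz
    rw [hN, mem_filter] at hz
    exact hz.2
  have hDh : ∀ z ∈ N, (heavy X c K (D z)).card ≤ M := by
    intro z hz
    have h1 := hD z hz
    rcases hSd z with h | h
    · simp only [hDdef] at h1; omega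
    · exact h.le
  choose T hTx hTc hT using fun x => exists_T0 hX hc hcpos K l m M0 hM0 hK N D hD x
  set I : Finset (V × V) := univ.filter (fun p => m ≤ (D p.2 ∩ (T p.1).biUnion X).card) with hI
  obtain ⟨F2, _, hF2, hF2c⟩ := exists_hitting' (univ : Finset V)
    (fun p : V × V => D p.2 ∩ (T p.1).biUnion X) m hm I (((c ^ 2) ^ 2 : ℕ) : ℝ)
    (by exact_mod_cast Nat.one_le_iff_ne_zero.mpr (by positivity))
    (by
      have : I.card ≤ (c ^ 2) ^ 2 := by
        calc I.card ≤ (univ : Finset (V × V)).card := card_filter_le _ _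
          _ = _ := by rw [card_univ, Fintype.card_prod, hc, sq (c ^ 2)]
      exact_mod_cast this)
    (fun p hp => ⟨subset_univ _, (mem_filter.mp hp).2⟩)
  rw [card_univ, hc] at hF2c
  refine ⟨F1, F2, N, S, T, hF1, hF2c, fun z => ⟨hSF z, hSK z⟩, ?_, hTx, hTc, ?_⟩
  · intro z hz
    rw [hN, mem_filter] at hz
    simp only [mem_univ, true_and, not_le] at hz
    exact hz
  · -- counting candidates
    have hcand : ∀ x, (cand N F2 (T x) X).card ≤
        ∑ w ∈ X x, (N.filter (fun z => w ∈ heavy X c K (D z))).card := by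
      intro x
      refine le_trans (card_le_card ?_) card_biUnion_le
      intro z hz
      rw [cand, mem_filter] at hz
      obtain ⟨hzN, hzT⟩ := hz
      rw [mem_biUnion]
      by_contra hcon
      push Not at hcon
      have hno : ∀ w ∈ X x, w ∉ heavy X c K (D z) := by
        intro w hw hwh
        exact hcon w hw (mem_filter.mpr ⟨hzN, hwh⟩)
      have hm' := hT x z hzN hno
      obtain ⟨y, hy⟩ := hF2 (x, z) (mem_filter.mpr ⟨mem_univ _, hm'⟩)
      rw [mem_inter, mem_inter, mem_biUnion] at hy
      obtain ⟨hyF, hyD, w, hwT, hyw⟩ := hy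
      have hwz : w ≠ z := by
        rintro rfl
        apply hno w (hTx x hwT)
        simp only [heavy, mem_filter, mem_univ, true_and]
        have h1 : X w ∩ D w = D w := by
          apply inter_eq_right.mpr
          exact sdiff_subset
        rw [h1]
        have h2 := hD w hzN
        have h3 : l ≤ K := by
          calc l = l * 1 := (mul_one l).symm
            _ ≤ l * (M0 + m) := Nat.mul_le_mul_left _ (by omega)
            _ ≤ K := hK
        exact h2.trans (Nat.mul_le_mul_right _ h3)
      have h4 := hzT w hwT hwz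
      have h5 : y ∈ (X w ∩ F2) ∩ (X z ∩ F2) := by
        rw [mem_inter, mem_inter, mem_inter]
        exact ⟨⟨hyw, hyF⟩, (mem_sdiff.mp hyD).1, hyF⟩
      rw [h4] at h5
      exact absurd h5 (notMem_empty _)
    calc ∑ x : V, (cand N F2 (T x) X).card
        ≤ ∑ x : V, ∑ w ∈ X x, (N.filter (fun z => w ∈ heavy X c K (D z))).card :=
          sum_le_sum (fun x _ => hcand x)
      _ = c * ∑ w : V, (N.filter (fun z => w ∈ heavy X c K (D z))).card := hX.sum_out hc _
      _ = c * ∑ z ∈ N, (heavy X c K (D z)).card := by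
          congr 1
          simp only [card_filter]
          rw [sum_comm]
          apply sum_congr rfl
          intro z _
          rw [← card_filter]
          congr 1
          ext w
          simp
      _ ≤ c * ∑ _z ∈ N, M := Nat.mul_le_mul_left _ (sum_le_sum (fun z hz => hDh z hz))
      _ ≤ c * (c ^ 2 * M) := by
          apply Nat.mul_le_mul_left
          rw [sum_const, smul_eq_mul]
          apply Nat.mul_le_mul_right
          rw [← hc]
          exact card_le_univ _

end Pool.Agent.Lib.MP_801f88_co
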